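import Pool.Agent.Gen.F5.X1C2D13m4.S000
import Pool.Agent.Gen.F5.X1C2D13m4.S001
import Pool.Agent.Gen.F5.X1C2D13m4.S002

set_option autoImplicit false
set_option maxRecDepth 100000

namespace Pool.Agent.Gen.F5.X1C2D13m4

open Pool.Agent.Helper72.F5

def n0 : Cl (O (nat_lit 4)) (R (nat_lit 104577))
    (p (nat_lit 0x89) (nat_lit 1) (p (nat_lit 0x81) (nat_lit 0) (p (nat_lit 0x109) (nat_lit 1) (p (nat_lit 0xb000c) (nat_lit 0) (p (nat_lit 0xb0004) (nat_lit 0) (p (nat_lit 0x200014) (nat_lit 1) (p (nat_lit 0xd1) (nat_lit 1) (p (nat_lit 0xc1) (nat_lit 0) (p (nat_lit 0x101) (nat_lit 1) (p (nat_lit 0x119) (nat_lit 0) (p (nat_lit 0xc9) (nat_lit 0) (p (nat_lit 0x89) (nat_lit 1) (p (nat_lit 0x41) (nat_lit 0) (p (nat_lit 0x108070907889a) (nat_lit 0) (p (nat_lit 0x107868887061a) (nat_lit 0) (p (nat_lit 0x8000000000000070806878a) (nat_lit 0) (p (nat_lit 0x8000000000000068786050a) (nat_lit 0) (p (nat_lit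 0x10507058682) (nat_lit 0) (p (nat_lit 0x10486850402) (nat_lit 0) (p (nat_lit 0x16000c) (nat_lit 0) (p (nat_lit 0x160004) (nat_lit 0) (p (nat_lit 0x50612) (nat_lit 0) (p (nat_lit 0x38592) (nat_lit 0) (p (nat_lit 0x40492) (nat_lit 0) (p (nat_lit 0x28412) (nat_lit 0) (p (nat_lit 0x30292) (nat_lit 0) (p (nat_lit 0x18212) (nat_lit 0) (p (nat_lit 0x20092) (nat_lit 0) (p (nat_lit 0x8012) (nat_lit 0) pn))))))))))))))))))))))))))))) :=
  Cl.node (nat_lit 0x41) (nat_lit 2) (by decide +kernel) (ClAll.succ (ClAll.succ ClAll.zero s41) s42)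

def n1 : Cl (O (nat_lit 4)) (R (nat_lit 104577))
    (p (nat_lit 0x111) (nat_lit 1) (p (nat_lit 0x41) (nat_lit 0) (p (nat_lit 0xb000c) (nat_lit 0) (p (nat_lit 0xb0004) (nat_lit 0) (p (nat_lit 0x200014) (nat_lit 1) (p (nat_lit 0xd1) (nat_lit 1) (p (nat_lit 0x109) (nat_lit 1) (p (nat_lit 0x101) (nat_lit 0) (p (nat_lit 0x119) (nat_lit 0) (p (nat_lit 0xc9) (nat_lit 0) (p (nat_lit 0x89) (nat_lit 1) (p (nat_lit 0x41) (nat_lit 0) (p (nat_lit 0x108070907889a) (nat_lit 0) (p (nat_lit 0x107868887061a) (nat_lit 0) (p (nat_lit 0x8000000000000070806878a) (nat_lit 0) (p (nat_lit 0x8000000000000068786050a) (nat_lit 0) (p (nat_lit 0x10507058682) (nat_lit 0) (p (nat_lit 0x10486850402) (nat_lit 0) (p (nat_lit 0x16000c) (nat_lit 0) (p (nat_lit 0x160004) (nat_lit 0) (p (nat_lit 0x50612) (nat_lit 0) (p (nat_lit 0x38592) (nat_lit 0) (p (nat_lit 0x40492) (nat_lit 0) (p (nat_lit 0x28412) (nat_lit 0) (p (nat_lit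 0x30292) (nat_lit 0) (p (nat_lit 0x18212) (nat_lit 0) (p (nat_lit 0x20092) (nat_lit 0) (p (nat_lit 0x8012) (nat_lit 0) pn)))))))))))))))))))))))))))) :=
  Cl.node (nat_lit 0x89) (nat_lit 2) (by decide +kernel) (ClAll.succ (ClAll.succ ClAll.zero s31) s32)

def n2 : Cl (O (nat_lit 4)) (R (nat_lit 104577))
    (p (nat_lit 0x81) (nat_lit 0) (p (nat_lit 0x109) (nat_lit 1) (p (nat_lit 0xb000c) (nat_lit 0) (p (nat_lit 0xb0004) (nat_lit 0) (p (nat_lit 0x200014) (nat_lit 1) (p (nat_lit 0xd1) (nat_lit 1) (p (nat_lit 0xc1) (nat_lit 0) (p (nat_lit 0x101) (nat_lit 1) (p (nat_lit 0x119) (nat_lit 0) (p (nat_lit 0xc9) (nat_lit 0) (p (nat_lit 0x89) (nat_lit 1) (p (nat_lit 0x41) (nat_lit 0) (p (nat_lit 0x108070907889a) (nat_lit 0) (p (nat_lit 0x107868887061a) (nat_lit 0) (p (nat_lit 0x8000000000000070806878a) (nat_lit 0) (p (nat_lit 0x8000000000000068786050a) (nat_lit 0) (p (nat_lit 0x10507058682) (nat_lit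 0) (p (nat_lit 0x10486850402) (nat_lit 0) (p (nat_lit 0x16000c) (nat_lit 0) (p (nat_lit 0x160004) (nat_lit 0) (p (nat_lit 0x50612) (nat_lit 0) (p (nat_lit 0x38592) (nat_lit 0) (p (nat_lit 0x40492) (nat_lit 0) (p (nat_lit 0x28412) (nat_lit 0) (p (nat_lit 0x30292) (nat_lit 0) (p (nat_lit 0x18212) (nat_lit 0) (p (nat_lit 0x20092) (nat_lit 0) (p (nat_lit 0x8012) (nat_lit 0) pn)))))))))))))))))))))))))))) :=
  Cl.node (nat_lit 0x89) (nat_lit 2) (by decide +kernel) (ClAll.succ (ClAll.succ ClAll.zero s40) n0)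

def n3 : Cl (O (nat_lit 4)) (R (nat_lit 104577))
    (p (nat_lit 0x41) (nat_lit 0) (p (nat_lit 0xb000c) (nat_lit 0) (p (nat_lit 0xb0004) (nat_lit 0) (p (nat_lit 0x200014) (nat_lit 1) (p (nat_lit 0xd1) (nat_lit 1) (p (nat_lit 0x109) (nat_lit 1) (p (nat_lit 0x101) (nat_lit 0) (p (nat_lit 0x119) (nat_lit 0) (p (nat_lit 0xc9) (nat_lit 0) (p (nat_lit 0x89) (nat_lit 1) (p (nat_lit 0x41) (nat_lit 0) (p (nat_lit 0x108070907889a) (nat_lit 0) (p (nat_lit 0x107868887061a) (nat_lit 0) (p (nat_lit 0x8000000000000070806878a) (nat_lit 0) (p (nat_lit 0x8000000000000068786050a) (nat_lit 0) (p (nat_lit 0x10507058682) (nat_lit 0) (p (nat_lit 0x10486850402) (nat_lit 0) (p (nat_lit 0x16000c) (nat_lit 0) (p (nat_lit 0x160004) (nat_lit 0) (p (nat_lit 0x50612) (nat_lit 0) (p (nat_lit 0x38592) (nat_lit 0) (p (nat_lit 0x40492) (nat_lit 0) (p (nat_lit 0x28412) (nat_lit 0) (p (nat_lit 0x30292) (nat_lit 0) (p (nat_lit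 0x18212) (nat_lit 0) (p (nat_lit 0x20092) (nat_lit 0) (p (nat_lit 0x8012) (nat_lit 0) pn))))))))))))))))))))))))))) :=
  Cl.node (nat_lit 0x111) (nat_lit 2) (by decide +kernel) (ClAll.succ (ClAll.succ ClAll.zero s30) n1)

def n4 : Cl (O (nat_lit 4)) (R (nat_lit 104577))
    (p (nat_lit 0x109) (nat_lit 1) (p (nat_lit 0xb000c) (nat_lit 0) (p (nat_lit 0xb0004) (nat_lit 0) (p (nat_lit 0x200014) (nat_lit 1) (p (nat_lit 0xd1) (nat_lit 1) (p (nat_lit 0xc1) (nat_lit 0) (p (nat_lit 0x101) (nat_lit 1) (p (nat_lit 0x119) (nat_lit 0) (p (nat_lit 0xc9) (nat_lit 0) (p (nat_lit 0x89) (nat_lit 1) (p (nat_lit 0x41) (nat_lit 0) (p (nat_lit 0x108070907889a) (nat_lit 0) (p (nat_lit 0x107868887061a) (nat_lit 0) (p (nat_lit 0x8000000000000070806878a) (nat_lit 0) (p (nat_lit 0x8000000000000068786050a) (nat_lit 0) (p (nat_lit 0x10507058682) (nat_lit 0) (p (nat_lit 0x10486850402) (nat_lit 0) (p (nat_lit 0x16000c)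 (nat_lit 0) (p (nat_lit 0x160004) (nat_lit 0) (p (nat_lit 0x50612) (nat_lit 0) (p (nat_lit 0x38592) (nat_lit 0) (p (nat_lit 0x40492) (nat_lit 0) (p (nat_lit 0x28412) (nat_lit 0) (p (nat_lit 0x30292) (nat_lit 0) (p (nat_lit 0x18212) (nat_lit 0) (p (nat_lit 0x20092) (nat_lit 0) (p (nat_lit 0x8012) (nat_lit 0) pn))))))))))))))))))))))))))) :=
  Cl.node (nat_lit 0x81) (nat_lit 2) (by decide +kernel) (ClAll.succ (ClAll.succ ClAll.zero n2) s43)

def n5 : Cl (O (nat_lit 4)) (R (nat_lit 104577))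
    (p (nat_lit 0x111) (nat_lit 1) (p (nat_lit 0xb000c) (nat_lit 0) (p (nat_lit 0xb0004) (nat_lit 0) (p (nat_lit 0x200014) (nat_lit 1) (p (nat_lit 0xd1) (nat_lit 1) (p (nat_lit 0xc9) (nat_lit 0) (p (nat_lit 0x101) (nat_lit 1) (p (nat_lit 0x119) (nat_lit 0) (p (nat_lit 0xc1) (nat_lit 0) (p (nat_lit 0x81) (nat_lit 1) (p (nat_lit 0x41) (nat_lit 1) (p (nat_lit 0x108070907889a) (nat_lit 0) (p (nat_lit 0x107868887061a) (nat_lit 0) (p (nat_lit 0x8000000000000070806878a) (nat_lit 0) (p (nat_lit 0x8000000000000068786050a) (nat_lit 0) (p (nat_lit 0x10507058682) (nat_lit 0) (p (nat_lit 0x10486850402) (nat_lit 0) (p (nat_lit 0x16000c) (nat_lit 0) (p (nat_lit 0x160004) (nat_lit 0) (p (nat_lit 0x50612) (nat_lit 0) (p (nat_lit 0x38592) (nat_lit 0) (p (nat_lit 0x40492) (nat_lit 0) (p (nat_lit 0x28412) (nat_lit 0) (p (nat_lit 0x30292) (nat_lit 0) (p (nat_lit 0x18212) (nat_lit 0) (p (nat_lit 0x20092) (nat_lit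 0) (p (nat_lit 0x8012) (nat_lit 0) pn))))))))))))))))))))))))))) :=
  Cl.node (nat_lit 0x81) (nat_lit 2) (by decide +kernel) (ClAll.succ (ClAll.succ ClAll.zero s92) s93)

def n6 : Cl (O (nat_lit 4)) (R (nat_lit 104577))
    (p (nat_lit 0xb000c) (nat_lit 0) (p (nat_lit 0xb0004) (nat_lit 0) (p (nat_lit 0x200014) (nat_lit 1) (p (nat_lit 0xd1) (nat_lit 1) (p (nat_lit 0x109) (nat_lit 1) (p (nat_lit 0x101) (nat_lit 0) (p (nat_lit 0x119) (nat_lit 0) (p (nat_lit 0xc9) (nat_lit 0) (p (nat_lit 0x89) (nat_lit 1) (p (nat_lit 0x41) (nat_lit 0) (p (nat_lit 0x108070907889a) (nat_lit 0) (p (nat_lit 0x107868887061a) (nat_lit 0) (p (nat_lit 0x8000000000000070806878a) (nat_lit 0) (p (nat_lit 0x8000000000000068786050a) (nat_lit 0) (p (nat_lit 0x10507058682) (nat_lit 0) (p (nat_lit 0x10486850402) (nat_lit 0) (p (nat_lit 0x16000c) (nat_lit 0) (p (nat_lit 0x160004) (nat_lit 0) (p (nat_lit 0x50612) (nat_lit 0)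 (p (nat_lit 0x38592) (nat_lit 0) (p (nat_lit 0x40492) (nat_lit 0) (p (nat_lit 0x28412) (nat_lit 0) (p (nat_lit 0x30292) (nat_lit 0) (p (nat_lit 0x18212) (nat_lit 0) (p (nat_lit 0x20092) (nat_lit 0) (p (nat_lit 0x8012) (nat_lit 0) pn)))))))))))))))))))))))))) :=
  Cl.node (nat_lit 0x41) (nat_lit 2) (by decide +kernel) (ClAll.succ (ClAll.succ ClAll.zero n3) s33)

def n7 : Cl (O (nat_lit 4)) (R (nat_lit 104577))
    (p (nat_lit 0xb000c) (nat_lit 0) (p (nat_lit 0xb0004) (nat_lit 0) (p (nat_lit 0x200014) (nat_lit 1) (p (nat_lit 0xd1) (nat_lit 1) (p (nat_lit 0xc1) (nat_lit 0) (p (nat_lit 0x101) (nat_lit 1) (p (nat_lit 0x119) (nat_lit 0) (p (nat_lit 0xc9) (nat_lit 0) (p (nat_lit 0x89) (nat_lit 1) (p (nat_lit 0x41) (nat_lit 0) (p (nat_lit 0x108070907889a) (nat_lit 0) (p (nat_lit 0x107868887061a) (nat_lit 0) (p (nat_lit 0x8000000000000070806878a) (nat_lit 0) (p (nat_lit 0x8000000000000068786050a)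 (nat_lit 0) (p (nat_lit 0x10507058682) (nat_lit 0) (p (nat_lit 0x10486850402) (nat_lit 0) (p (nat_lit 0x16000c) (nat_lit 0) (p (nat_lit 0x160004) (nat_lit 0) (p (nat_lit 0x50612) (nat_lit 0) (p (nat_lit 0x38592) (nat_lit 0) (p (nat_lit 0x40492) (nat_lit 0) (p (nat_lit 0x28412) (nat_lit 0) (p (nat_lit 0x30292) (nat_lit 0) (p (nat_lit 0x18212) (nat_lit 0) (p (nat_lit 0x20092) (nat_lit 0) (p (nat_lit 0x8012) (nat_lit 0) pn)))))))))))))))))))))))))) :=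
  Cl.node (nat_lit 0x109) (nat_lit 2) (by decide +kernel) (ClAll.succ (ClAll.succ ClAll.zero s39) n4)

def n8 : Cl (O (nat_lit 4)) (R (nat_lit 104577))
    (p (nat_lit 0xb000c) (nat_lit 0) (p (nat_lit 0xb0004) (nat_lit 0) (p (nat_lit 0x200014) (nat_lit 1) (p (nat_lit 0x111) (nat_lit 1) (p (nat_lit 0x101) (nat_lit 0) (p (nat_lit 0xc1) (nat_lit 1) (p (nat_lit 0x119) (nat_lit 1) (p (nat_lit 0xc9) (nat_lit 0) (p (nat_lit 0x89) (nat_lit 1) (p (nat_lit 0x41) (nat_lit 0) (p (nat_lit 0x108070907889a) (nat_lit 0) (p (nat_lit 0x107868887061a) (nat_lit 0) (p (nat_lit 0x8000000000000070806878a) (nat_lit 0) (p (nat_lit 0x8000000000000068786050a) (nat_lit 0) (p (nat_lit 0x10507058682) (nat_lit 0) (p (nat_lit 0x10486850402) (nat_lit 0) (p (nat_lit 0x16000c) (nat_lit 0) (p (nat_lit 0x160004) (nat_lit 0) (p (nat_lit 0x50612) (nat_lit 0) (p (nat_lit 0x38592) (nat_lit 0) (p (nat_lit 0x40492) (nat_lit 0) (p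 (nat_lit 0x28412) (nat_lit 0) (p (nat_lit 0x30292) (nat_lit 0) (p (nat_lit 0x18212) (nat_lit 0) (p (nat_lit 0x20092) (nat_lit 0) (p (nat_lit 0x8012) (nat_lit 0) pn)))))))))))))))))))))))))) :=
  Cl.node (nat_lit 0xd1) (nat_lit 2) (by decide +kernel) (ClAll.succ (ClAll.succ ClAll.zero s50) s51)

def n9 : Cl (O (nat_lit 4)) (R (nat_lit 104577))
    (p (nat_lit 0xb000c) (nat_lit 0) (p (nat_lit 0xb0004) (nat_lit 0) (p (nat_lit 0x200014) (nat_lit 1) (p (nat_lit 0xd1) (nat_lit 1) (p (nat_lit 0xc9) (nat_lit 0) (p (nat_lit 0x101) (nat_lit 1) (p (nat_lit 0x119) (nat_lit 0) (p (nat_lit 0xc1) (nat_lit 0) (p (nat_lit 0x81) (nat_lit 1) (p (nat_lit 0x41) (nat_lit 1) (p (nat_lit 0x108070907889a) (nat_lit 0) (p (nat_lit 0x107868887061a) (nat_lit 0) (p (nat_lit 0x8000000000000070806878a) (nat_lit 0) (p (nat_lit 0x8000000000000068786050a) (nat_lit 0) (p (nat_lit 0x10507058682) (nat_lit 0) (p (nat_lit 0x10486850402)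 (nat_lit 0) (p (nat_lit 0x16000c) (nat_lit 0) (p (nat_lit 0x160004) (nat_lit 0) (p (nat_lit 0x50612) (nat_lit 0) (p (nat_lit 0x38592) (nat_lit 0) (p (nat_lit 0x40492) (nat_lit 0) (p (nat_lit 0x28412) (nat_lit 0) (p (nat_lit 0x30292) (nat_lit 0) (p (nat_lit 0x18212) (nat_lit 0) (p (nat_lit 0x20092) (nat_lit 0) (p (nat_lit 0x8012) (nat_lit 0) pn)))))))))))))))))))))))))) :=
  Cl.node (nat_lit 0x111) (nat_lit 2) (by decide +kernel) (ClAll.succ (ClAll.succ ClAll.zero s91) n5)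

def n10 : Cl (O (nat_lit 4)) (R (nat_lit 104577))
    (p (nat_lit 0xb000c) (nat_lit 0) (p (nat_lit 0xb0004) (nat_lit 0) (p (nat_lit 0x200014) (nat_lit 1) (p (nat_lit 0x111) (nat_lit 1) (p (nat_lit 0x109) (nat_lit 0) (p (nat_lit 0xc9) (nat_lit 1) (p (nat_lit 0x119) (nat_lit 1) (p (nat_lit 0xc1) (nat_lit 0) (p (nat_lit 0x81) (nat_lit 1) (p (nat_lit 0x41) (nat_lit 1) (p (nat_lit 0x108070907889a) (nat_lit 0) (p (nat_lit 0x107868887061a) (nat_lit 0) (p (nat_lit 0x8000000000000070806878a) (nat_lit 0) (p (nat_lit 0x8000000000000068786050a) (nat_lit 0) (p (nat_lit 0x10507058682) (nat_lit 0) (p (nat_lit 0x10486850402) (nat_lit 0) (p (nat_lit 0x16000c) (nat_lit 0) (p (nat_lit 0x160004) (nat_lit 0) (p (nat_lit 0x50612) (nat_lit 0) (p (nat_lit 0x38592) (nat_lit 0) (p (nat_lit 0x40492) (nat_lit 0) (p (nat_lit 0x28412) (nat_lit 0) (p (nat_lit 0x30292) (nat_lit 0) (p (nat_lit 0x18212) (nat_lit 0) (p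 (nat_lit 0x20092) (nat_lit 0) (p (nat_lit 0x8012) (nat_lit 0) pn)))))))))))))))))))))))))) :=
  Cl.node (nat_lit 0xd1) (nat_lit 2) (by decide +kernel) (ClAll.succ (ClAll.succ ClAll.zero s102) s103)

def n11 : Cl (O (nat_lit 4)) (R (nat_lit 104577))
    (p (nat_lit 0xb0004) (nat_lit 0) (p (nat_lit 0x200014) (nat_lit 1) (p (nat_lit 0xd1) (nat_lit 1) (p (nat_lit 0x109) (nat_lit 1) (p (nat_lit 0x101) (nat_lit 0) (p (nat_lit 0x119) (nat_lit 0) (p (nat_lit 0xc9) (nat_lit 0) (p (nat_lit 0x89) (nat_lit 1) (p (nat_lit 0x41) (nat_lit 0) (p (nat_lit 0x108070907889a) (nat_lit 0) (p (nat_lit 0x107868887061a) (nat_lit 0) (p (nat_lit 0x8000000000000070806878a) (nat_lit 0) (p (nat_lit 0x8000000000000068786050a) (nat_lit 0) (p (nat_lit 0x10507058682) (nat_lit 0) (p (nat_lit 0x10486850402) (nat_lit 0) (p (nat_lit 0x16000c) (nat_lit 0) (p (nat_lit 0x160004) (nat_lit 0) (p (nat_lit 0x50612) (nat_lit 0) (p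 (nat_lit 0x38592) (nat_lit 0) (p (nat_lit 0x40492) (nat_lit 0) (p (nat_lit 0x28412) (nat_lit 0) (p (nat_lit 0x30292) (nat_lit 0) (p (nat_lit 0x18212) (nat_lit 0) (p (nat_lit 0x20092) (nat_lit 0) (p (nat_lit 0x8012) (nat_lit 0) pn))))))))))))))))))))))))) :=
  Cl.node (nat_lit 0xb000c) (nat_lit 2) (by decide +kernel) (ClAll.succ (ClAll.succ ClAll.zero n6) s34)

def n12 : Cl (O (nat_lit 4)) (R (nat_lit 104577))
    (p (nat_lit 0xb0004) (nat_lit 0) (p (nat_lit 0x200014) (nat_lit 1) (p (nat_lit 0xd1) (nat_lit 1) (p (nat_lit 0xc1) (nat_lit 0) (p (nat_lit 0x101) (nat_lit 1) (p (nat_lit 0x119) (nat_lit 0) (p (nat_lit 0xc9) (nat_lit 0) (p (nat_lit 0x89) (nat_lit 1) (p (nat_lit 0x41) (nat_lit 0) (p (nat_lit 0x108070907889a) (nat_lit 0) (p (nat_lit 0x107868887061a) (nat_lit 0) (p (nat_lit 0x8000000000000070806878a) (nat_lit 0) (p (nat_lit 0x8000000000000068786050a) (nat_lit 0) (p (nat_lit 0x10507058682)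 (nat_lit 0) (p (nat_lit 0x10486850402) (nat_lit 0) (p (nat_lit 0x16000c) (nat_lit 0) (p (nat_lit 0x160004) (nat_lit 0) (p (nat_lit 0x50612) (nat_lit 0) (p (nat_lit 0x38592) (nat_lit 0) (p (nat_lit 0x40492) (nat_lit 0) (p (nat_lit 0x28412) (nat_lit 0) (p (nat_lit 0x30292) (nat_lit 0) (p (nat_lit 0x18212) (nat_lit 0) (p (nat_lit 0x20092) (nat_lit 0) (p (nat_lit 0x8012) (nat_lit 0) pn))))))))))))))))))))))))) :=
  Cl.node (nat_lit 0xb000c) (nat_lit 2) (by decide +kernel) (ClAll.succ (ClAll.succ ClAll.zero n7) s44)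

def n13 : Cl (O (nat_lit 4)) (R (nat_lit 104577))
    (p (nat_lit 0xb0004) (nat_lit 0) (p (nat_lit 0x200014) (nat_lit 1) (p (nat_lit 0x111) (nat_lit 1) (p (nat_lit 0x101) (nat_lit 0) (p (nat_lit 0xc1) (nat_lit 1) (p (nat_lit 0x119) (nat_lit 1) (p (nat_lit 0xc9) (nat_lit 0) (p (nat_lit 0x89) (nat_lit 1) (p (nat_lit 0x41) (nat_lit 0) (p (nat_lit 0x108070907889a) (nat_lit 0) (p (nat_lit 0x107868887061a) (nat_lit 0) (p (nat_lit 0x8000000000000070806878a) (nat_lit 0) (p (nat_lit 0x8000000000000068786050a) (nat_lit 0) (p (nat_lit 0x10507058682) (nat_lit 0) (p (nat_lit 0x10486850402) (nat_lit 0) (p (nat_lit 0x16000c) (nat_lit 0) (p (nat_lit 0x160004) (nat_lit 0) (p (nat_lit 0x50612) (nat_lit 0) (p (nat_lit 0x38592) (nat_lit 0) (p (nat_lit 0x40492) (nat_lit 0) (p (nat_lit 0x28412) (nat_lit 0) (p (nat_lit 0x30292) (nat_lit 0) (p (nat_lit 0x18212) (nat_lit 0) (p (nat_lit 0x20092) (nat_lit 0) (p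 (nat_lit 0x8012) (nat_lit 0) pn))))))))))))))))))))))))) :=
  Cl.node (nat_lit 0xb000c) (nat_lit 2) (by decide +kernel) (ClAll.succ (ClAll.succ ClAll.zero n8) s52)

def n14 : Cl (O (nat_lit 4)) (R (nat_lit 104577))
    (p (nat_lit 0xb0004) (nat_lit 0) (p (nat_lit 0x200014) (nat_lit 1) (p (nat_lit 0xd1) (nat_lit 1) (p (nat_lit 0xc9) (nat_lit 0) (p (nat_lit 0x101) (nat_lit 1) (p (nat_lit 0x119) (nat_lit 0) (p (nat_lit 0xc1) (nat_lit 0) (p (nat_lit 0x81) (nat_lit 1) (p (nat_lit 0x41) (nat_lit 1) (p (nat_lit 0x108070907889a) (nat_lit 0) (p (nat_lit 0x107868887061a) (nat_lit 0) (p (nat_lit 0x8000000000000070806878a) (nat_lit 0) (p (nat_lit 0x8000000000000068786050a) (nat_lit 0) (p (nat_lit 0x10507058682) (nat_lit 0) (p (nat_lit 0x10486850402) (nat_lit 0) (p (nat_lit 0x16000c) (nat_lit 0) (p (nat_lit 0x160004) (nat_lit 0) (p (nat_lit 0x50612) (nat_lit 0) (p (nat_lit 0x38592) (nat_lit 0) (p (nat_lit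 0x40492) (nat_lit 0) (p (nat_lit 0x28412) (nat_lit 0) (p (nat_lit 0x30292) (nat_lit 0) (p (nat_lit 0x18212) (nat_lit 0) (p (nat_lit 0x20092) (nat_lit 0) (p (nat_lit 0x8012) (nat_lit 0) pn))))))))))))))))))))))))) :=
  Cl.node (nat_lit 0xb000c) (nat_lit 2) (by decide +kernel) (ClAll.succ (ClAll.succ ClAll.zero n9) s94)

def n15 : Cl (O (nat_lit 4)) (R (nat_lit 104577))
    (p (nat_lit 0xb0004) (nat_lit 0) (p (nat_lit 0x200014) (nat_lit 1) (p (nat_lit 0x111) (nat_lit 1) (p (nat_lit 0x109) (nat_lit 0) (p (nat_lit 0xc9) (nat_lit 1) (p (nat_lit 0x119) (nat_lit 1) (p (nat_lit 0xc1) (nat_lit 0) (p (nat_lit 0x81) (nat_lit 1) (p (nat_lit 0x41) (nat_lit 1) (p (nat_lit 0x108070907889a) (nat_lit 0) (p (nat_lit 0x107868887061a) (nat_lit 0) (p (nat_lit 0x8000000000000070806878a) (nat_lit 0) (p (nat_lit 0x8000000000000068786050a) (nat_lit 0) (p (nat_lit 0x10507058682) (nat_lit 0) (p (nat_lit 0x10486850402)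 (nat_lit 0) (p (nat_lit 0x16000c) (nat_lit 0) (p (nat_lit 0x160004) (nat_lit 0) (p (nat_lit 0x50612) (nat_lit 0) (p (nat_lit 0x38592) (nat_lit 0) (p (nat_lit 0x40492) (nat_lit 0) (p (nat_lit 0x28412) (nat_lit 0) (p (nat_lit 0x30292) (nat_lit 0) (p (nat_lit 0x18212) (nat_lit 0) (p (nat_lit 0x20092) (nat_lit 0) (p (nat_lit 0x8012) (nat_lit 0) pn))))))))))))))))))))))))) :=
  Cl.node (nat_lit 0xb000c) (nat_lit 2) (by decide +kernel) (ClAll.succ (ClAll.succ ClAll.zero n10) s104)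

def n16 : Cl (O (nat_lit 4)) (R (nat_lit 104577))
    (p (nat_lit 0x109) (nat_lit 1) (p (nat_lit 0x101) (nat_lit 0) (p (nat_lit 0x81) (nat_lit 1) (p (nat_lit 0xc1) (nat_lit 1) (p (nat_lit 0x119) (nat_lit 1) (p (nat_lit 0xd1) (nat_lit 0) (p (nat_lit 0x89) (nat_lit 0) (p (nat_lit 0x41) (nat_lit 0) (p (nat_lit 0x108070907889a) (nat_lit 0) (p (nat_lit 0x107868887061a) (nat_lit 0) (p (nat_lit 0x8000000000000070806878a) (nat_lit 0) (p (nat_lit 0x8000000000000068786050a) (nat_lit 0) (p (nat_lit 0x10507058682) (nat_lit 0) (p (nat_lit 0x10486850402) (nat_lit 0) (p (nat_lit 0x16000c) (nat_lit 0) (p (nat_lit 0x160004) (nat_lit 0) (p (nat_lit 0x50612) (nat_lit 0) (p (nat_lit 0x38592) (nat_lit 0) (p (nat_lit 0x40492) (nat_lit 0) (p (nat_lit 0x28412) (nat_lit 0) (p (nat_lit 0x30292) (nat_lit 0) (p (nat_lit 0x18212) (nat_lit 0) (p (nat_lit 0x20092) (nat_lit 0) (p (nat_lit 0x8012) (nat_lit 0) pn))))))))))))))))))))))))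 :=
  Cl.node (nat_lit 0x200014) (nat_lit 2) (by decide +kernel) (ClAll.succ (ClAll.succ ClAll.zero s12) s13)

def n17 : Cl (O (nat_lit 4)) (R (nat_lit 104577))
    (p (nat_lit 0x200014) (nat_lit 1) (p (nat_lit 0xd1) (nat_lit 1) (p (nat_lit 0x109) (nat_lit 1) (p (nat_lit 0x101) (nat_lit 0) (p (nat_lit 0x119) (nat_lit 0) (p (nat_lit 0xc9) (nat_lit 0) (p (nat_lit 0x89) (nat_lit 1) (p (nat_lit 0x41) (nat_lit 0) (p (nat_lit 0x108070907889a) (nat_lit 0) (p (nat_lit 0x107868887061a) (nat_lit 0) (p (nat_lit 0x8000000000000070806878a) (nat_lit 0) (p (nat_lit 0x8000000000000068786050a) (nat_lit 0) (p (nat_lit 0x10507058682) (nat_lit 0) (p (nat_lit 0x10486850402) (nat_lit 0) (p (nat_lit 0x16000c) (nat_lit 0) (p (nat_lit 0x160004) (nat_lit 0) (p (nat_lit 0x50612) (nat_lit 0) (p (nat_lit 0x38592) (nat_lit 0) (p (nat_lit 0x40492) (nat_lit 0) (p (nat_lit 0x28412) (nat_lit 0) (p (nat_lit 0x30292) (nat_lit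 0) (p (nat_lit 0x18212) (nat_lit 0) (p (nat_lit 0x20092) (nat_lit 0) (p (nat_lit 0x8012) (nat_lit 0) pn)))))))))))))))))))))))) :=
  Cl.node (nat_lit 0xb0004) (nat_lit 2) (by decide +kernel) (ClAll.succ (ClAll.succ ClAll.zero n11) s35)

def n18 : Cl (O (nat_lit 4)) (R (nat_lit 104577))
    (p (nat_lit 0x200014) (nat_lit 1) (p (nat_lit 0xd1) (nat_lit 1) (p (nat_lit 0xc1) (nat_lit 0) (p (nat_lit 0x101) (nat_lit 1) (p (nat_lit 0x119) (nat_lit 0) (p (nat_lit 0xc9) (nat_lit 0) (p (nat_lit 0x89) (nat_lit 1) (p (nat_lit 0x41) (nat_lit 0) (p (nat_lit 0x108070907889a) (nat_lit 0) (p (nat_lit 0x107868887061a) (nat_lit 0) (p (nat_lit 0x8000000000000070806878a) (nat_lit 0) (p (nat_lit 0x8000000000000068786050a) (nat_lit 0) (p (nat_lit 0x10507058682) (nat_lit 0) (p (nat_lit 0x10486850402) (nat_lit 0) (p (nat_lit 0x16000c) (nat_lit 0) (p (nat_lit 0x160004) (nat_lit 0) (p (nat_lit 0x50612) (nat_lit 0)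 (p (nat_lit 0x38592) (nat_lit 0) (p (nat_lit 0x40492) (nat_lit 0) (p (nat_lit 0x28412) (nat_lit 0) (p (nat_lit 0x30292) (nat_lit 0) (p (nat_lit 0x18212) (nat_lit 0) (p (nat_lit 0x20092) (nat_lit 0) (p (nat_lit 0x8012) (nat_lit 0) pn)))))))))))))))))))))))) :=
  Cl.node (nat_lit 0xb0004) (nat_lit 2) (by decide +kernel) (ClAll.succ (ClAll.succ ClAll.zero n12) s45)

def n19 : Cl (O (nat_lit 4)) (R (nat_lit 104577))
    (p (nat_lit 0x200014) (nat_lit 1) (p (nat_lit 0x111) (nat_lit 1) (p (nat_lit 0x101) (nat_lit 0) (p (nat_lit 0xc1) (nat_lit 1) (p (nat_lit 0x119) (nat_lit 1) (p (nat_lit 0xc9) (nat_lit 0) (p (nat_lit 0x89) (nat_lit 1) (p (nat_lit 0x41) (nat_lit 0) (p (nat_lit 0x108070907889a) (nat_lit 0) (p (nat_lit 0x107868887061a) (nat_lit 0) (p (nat_lit 0x8000000000000070806878a) (nat_lit 0) (p (nat_lit 0x8000000000000068786050a) (nat_lit 0) (p (nat_lit 0x10507058682) (nat_lit 0) (p (nat_lit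 0x10486850402) (nat_lit 0) (p (nat_lit 0x16000c) (nat_lit 0) (p (nat_lit 0x160004) (nat_lit 0) (p (nat_lit 0x50612) (nat_lit 0) (p (nat_lit 0x38592) (nat_lit 0) (p (nat_lit 0x40492) (nat_lit 0) (p (nat_lit 0x28412) (nat_lit 0) (p (nat_lit 0x30292) (nat_lit 0) (p (nat_lit 0x18212) (nat_lit 0) (p (nat_lit 0x20092) (nat_lit 0) (p (nat_lit 0x8012) (nat_lit 0) pn)))))))))))))))))))))))) :=
  Cl.node (nat_lit 0xb0004) (nat_lit 2) (by decide +kernel) (ClAll.succ (ClAll.succ ClAll.zero n13) s53)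

def n20 : Cl (O (nat_lit 4)) (R (nat_lit 104577))
    (p (nat_lit 0xd1) (nat_lit 1) (p (nat_lit 0x111) (nat_lit 1) (p (nat_lit 0x109) (nat_lit 0) (p (nat_lit 0x101) (nat_lit 0) (p (nat_lit 0x119) (nat_lit 0) (p (nat_lit 0xc1) (nat_lit 0) (p (nat_lit 0x81) (nat_lit 1) (p (nat_lit 0x41) (nat_lit 1) (p (nat_lit 0x108070907889a) (nat_lit 0) (p (nat_lit 0x107868887061a) (nat_lit 0) (p (nat_lit 0x8000000000000070806878a) (nat_lit 0) (p (nat_lit 0x8000000000000068786050a) (nat_lit 0) (p (nat_lit 0x10507058682) (nat_lit 0) (p (nat_lit 0x10486850402) (nat_lit 0) (p (nat_lit 0x16000c) (nat_lit 0) (p (nat_lit 0x160004) (nat_lit 0) (p (nat_lit 0x50612) (nat_lit 0) (p (nat_lit 0x38592) (nat_lit 0) (p (nat_lit 0x40492) (nat_lit 0) (p (nat_lit 0x28412) (nat_lit 0) (p (nat_lit 0x30292) (nat_lit 0) (p (nat_lit 0x18212) (nat_lit 0) (p (nat_lit 0x20092) (nat_lit 0) (p (nat_lit 0x8012) (nat_lit 0) pn))))))))))))))))))))))))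 :=
  Cl.node (nat_lit 0x200014) (nat_lit 2) (by decide +kernel) (ClAll.succ (ClAll.succ ClAll.zero s84) s85)

def n21 : Cl (O (nat_lit 4)) (R (nat_lit 104577))
    (p (nat_lit 0x200014) (nat_lit 1) (p (nat_lit 0xd1) (nat_lit 1) (p (nat_lit 0xc9) (nat_lit 0) (p (nat_lit 0x101) (nat_lit 1) (p (nat_lit 0x119) (nat_lit 0) (p (nat_lit 0xc1) (nat_lit 0) (p (nat_lit 0x81) (nat_lit 1) (p (nat_lit 0x41) (nat_lit 1) (p (nat_lit 0x108070907889a) (nat_lit 0) (p (nat_lit 0x107868887061a) (nat_lit 0) (p (nat_lit 0x8000000000000070806878a) (nat_lit 0) (p (nat_lit 0x8000000000000068786050a) (nat_lit 0) (p (nat_lit 0x10507058682) (nat_lit 0) (p (nat_lit 0x10486850402) (nat_lit 0) (p (nat_lit 0x16000c) (nat_lit 0) (p (nat_lit 0x160004) (nat_lit 0) (p (nat_lit 0x50612) (nat_lit 0) (p (nat_lit 0x38592) (nat_lit 0) (p (nat_lit 0x40492) (nat_lit 0) (p (nat_lit 0x28412) (nat_lit 0) (p (nat_lit 0x30292) (nat_lit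 0) (p (nat_lit 0x18212) (nat_lit 0) (p (nat_lit 0x20092) (nat_lit 0) (p (nat_lit 0x8012) (nat_lit 0) pn)))))))))))))))))))))))) :=
  Cl.node (nat_lit 0xb0004) (nat_lit 2) (by decide +kernel) (ClAll.succ (ClAll.succ ClAll.zero n14) s95)

def n22 : Cl (O (nat_lit 4)) (R (nat_lit 104577))
    (p (nat_lit 0x200014) (nat_lit 1) (p (nat_lit 0x111) (nat_lit 1) (p (nat_lit 0x109) (nat_lit 0) (p (nat_lit 0xc9) (nat_lit 1) (p (nat_lit 0x119) (nat_lit 1) (p (nat_lit 0xc1) (nat_lit 0) (p (nat_lit 0x81) (nat_lit 1) (p (nat_lit 0x41) (nat_lit 1) (p (nat_lit 0x108070907889a) (nat_lit 0) (p (nat_lit 0x107868887061a) (nat_lit 0) (p (nat_lit 0x8000000000000070806878a) (nat_lit 0) (p (nat_lit 0x8000000000000068786050a) (nat_lit 0) (p (nat_lit 0x10507058682) (nat_lit 0) (p (nat_lit 0x10486850402) (nat_lit 0) (p (nat_lit 0x16000c) (nat_lit 0) (p (nat_lit 0x160004) (nat_lit 0) (p (nat_lit 0x50612) (nat_lit 0)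 (p (nat_lit 0x38592) (nat_lit 0) (p (nat_lit 0x40492) (nat_lit 0) (p (nat_lit 0x28412) (nat_lit 0) (p (nat_lit 0x30292) (nat_lit 0) (p (nat_lit 0x18212) (nat_lit 0) (p (nat_lit 0x20092) (nat_lit 0) (p (nat_lit 0x8012) (nat_lit 0) pn)))))))))))))))))))))))) :=
  Cl.node (nat_lit 0xb0004) (nat_lit 2) (by decide +kernel) (ClAll.succ (ClAll.succ ClAll.zero n15) s105)

def n23 : Cl (O (nat_lit 4)) (R (nat_lit 104577))
    (p (nat_lit 0xc9) (nat_lit 1) (p (nat_lit 0x109) (nat_lit 1) (p (nat_lit 0x101) (nat_lit 0) (p (nat_lit 0x119) (nat_lit 0) (p (nat_lit 0xd1) (nat_lit 0) (p (nat_lit 0x89) (nat_lit 0) (p (nat_lit 0x41) (nat_lit 0) (p (nat_lit 0x108070907889a) (nat_lit 0) (p (nat_lit 0x107868887061a) (nat_lit 0) (p (nat_lit 0x8000000000000070806878a) (nat_lit 0) (p (nat_lit 0x8000000000000068786050a) (nat_lit 0) (p (nat_lit 0x10507058682) (nat_lit 0) (p (nat_lit 0x10486850402) (nat_lit 0) (p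 (nat_lit 0x16000c) (nat_lit 0) (p (nat_lit 0x160004) (nat_lit 0) (p (nat_lit 0x50612) (nat_lit 0) (p (nat_lit 0x38592) (nat_lit 0) (p (nat_lit 0x40492) (nat_lit 0) (p (nat_lit 0x28412) (nat_lit 0) (p (nat_lit 0x30292) (nat_lit 0) (p (nat_lit 0x18212) (nat_lit 0) (p (nat_lit 0x20092) (nat_lit 0) (p (nat_lit 0x8012) (nat_lit 0) pn))))))))))))))))))))))) :=
  Cl.node (nat_lit 0x200014) (nat_lit 2) (by decide +kernel) (ClAll.succ (ClAll.succ ClAll.zero s2) s3)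

def n24 : Cl (O (nat_lit 4)) (R (nat_lit 104577))
    (p (nat_lit 0x101) (nat_lit 0) (p (nat_lit 0x81) (nat_lit 1) (p (nat_lit 0xc1) (nat_lit 1) (p (nat_lit 0x119) (nat_lit 1) (p (nat_lit 0xd1) (nat_lit 0) (p (nat_lit 0x89) (nat_lit 0) (p (nat_lit 0x41) (nat_lit 0) (p (nat_lit 0x108070907889a) (nat_lit 0) (p (nat_lit 0x107868887061a) (nat_lit 0) (p (nat_lit 0x8000000000000070806878a) (nat_lit 0) (p (nat_lit 0x8000000000000068786050a) (nat_lit 0) (p (nat_lit 0x10507058682) (nat_lit 0) (p (nat_lit 0x10486850402) (nat_lit 0) (p (nat_lit 0x16000c) (nat_lit 0) (p (nat_lit 0x160004) (nat_lit 0) (p (nat_lit 0x50612) (nat_lit 0) (p (nat_lit 0x38592) (nat_lit 0) (p (nat_lit 0x40492) (nat_lit 0) (p (nat_lit 0x28412) (nat_lit 0) (p (nat_lit 0x30292) (nat_lit 0) (p (nat_lit 0x18212) (nat_lit 0) (p (nat_lit 0x20092) (nat_lit 0) (p (nat_lit 0x8012) (nat_lit 0) pn))))))))))))))))))))))) :=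
  Cl.node (nat_lit 0x109) (nat_lit 2) (by decide +kernel) (ClAll.succ (ClAll.succ ClAll.zero s11) n16)

def n25 : Cl (O (nat_lit 4)) (R (nat_lit 104577))
    (p (nat_lit 0xc1) (nat_lit 0) (p (nat_lit 0x81) (nat_lit 1) (p (nat_lit 0x101) (nat_lit 1) (p (nat_lit 0x111) (nat_lit 0) (p (nat_lit 0xd1) (nat_lit 1) (p (nat_lit 0x89) (nat_lit 0) (p (nat_lit 0x41) (nat_lit 0) (p (nat_lit 0x108070907889a) (nat_lit 0) (p (nat_lit 0x107868887061a) (nat_lit 0) (p (nat_lit 0x8000000000000070806878a) (nat_lit 0) (p (nat_lit 0x8000000000000068786050a) (nat_lit 0) (p (nat_lit 0x10507058682) (nat_lit 0) (p (nat_lit 0x10486850402) (nat_lit 0) (p (nat_lit 0x16000c) (nat_lit 0) (p (nat_lit 0x160004) (nat_lit 0) (p (nat_lit 0x50612) (nat_lit 0) (p (nat_lit 0x38592) (nat_lit 0) (p (nat_lit 0x40492) (nat_lit 0) (p (nat_lit 0x28412) (nat_lit 0) (p (nat_lit 0x30292) (nat_lit 0) (p (nat_lit 0x18212) (nat_lit 0) (p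 (nat_lit 0x20092) (nat_lit 0) (p (nat_lit 0x8012) (nat_lit 0) pn))))))))))))))))))))))) :=
  Cl.node (nat_lit 0x200014) (nat_lit 2) (by decide +kernel) (ClAll.succ (ClAll.succ ClAll.zero s20) s21)

def n26 : Cl (O (nat_lit 4)) (R (nat_lit 104577))
    (p (nat_lit 0xd1) (nat_lit 0) (p (nat_lit 0x109) (nat_lit 1) (p (nat_lit 0x101) (nat_lit 0) (p (nat_lit 0x119) (nat_lit 0) (p (nat_lit 0xc9) (nat_lit 0) (p (nat_lit 0x89) (nat_lit 1) (p (nat_lit 0x41) (nat_lit 0) (p (nat_lit 0x108070907889a) (nat_lit 0) (p (nat_lit 0x107868887061a) (nat_lit 0) (p (nat_lit 0x8000000000000070806878a) (nat_lit 0) (p (nat_lit 0x8000000000000068786050a) (nat_lit 0) (p (nat_lit 0x10507058682) (nat_lit 0) (p (nat_lit 0x10486850402) (nat_lit 0) (p (nat_lit 0x16000c) (nat_lit 0) (p (nat_lit 0x160004) (nat_lit 0) (p (nat_lit 0x50612) (nat_lit 0) (p (nat_lit 0x38592) (nat_lit 0) (p (nat_lit 0x40492) (nat_lit 0) (p (nat_lit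 0x28412) (nat_lit 0) (p (nat_lit 0x30292) (nat_lit 0) (p (nat_lit 0x18212) (nat_lit 0) (p (nat_lit 0x20092) (nat_lit 0) (p (nat_lit 0x8012) (nat_lit 0) pn))))))))))))))))))))))) :=
  Cl.node (nat_lit 0x200014) (nat_lit 2) (by decide +kernel) (ClAll.succ (ClAll.succ ClAll.zero s27) s28)

def n27 : Cl (O (nat_lit 4)) (R (nat_lit 104577))
    (p (nat_lit 0xd1) (nat_lit 1) (p (nat_lit 0x109) (nat_lit 1) (p (nat_lit 0x101) (nat_lit 0) (p (nat_lit 0x119) (nat_lit 0) (p (nat_lit 0xc9) (nat_lit 0) (p (nat_lit 0x89) (nat_lit 1) (p (nat_lit 0x41) (nat_lit 0) (p (nat_lit 0x108070907889a) (nat_lit 0) (p (nat_lit 0x107868887061a) (nat_lit 0) (p (nat_lit 0x8000000000000070806878a) (nat_lit 0) (p (nat_lit 0x8000000000000068786050a) (nat_lit 0) (p (nat_lit 0x10507058682) (nat_lit 0) (p (nat_lit 0x10486850402) (nat_lit 0) (p (nat_lit 0x16000c) (nat_lit 0) (p (nat_lit 0x160004) (nat_lit 0) (p (nat_lit 0x50612)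 (nat_lit 0) (p (nat_lit 0x38592) (nat_lit 0) (p (nat_lit 0x40492) (nat_lit 0) (p (nat_lit 0x28412) (nat_lit 0) (p (nat_lit 0x30292) (nat_lit 0) (p (nat_lit 0x18212) (nat_lit 0) (p (nat_lit 0x20092) (nat_lit 0) (p (nat_lit 0x8012) (nat_lit 0) pn))))))))))))))))))))))) :=
  Cl.node (nat_lit 0x200014) (nat_lit 2) (by decide +kernel) (ClAll.succ (ClAll.succ ClAll.zero s29) n17)

def n28 : Cl (O (nat_lit 4)) (R (nat_lit 104577))
    (p (nat_lit 0xd1) (nat_lit 0) (p (nat_lit 0xc1) (nat_lit 0) (p (nat_lit 0x101) (nat_lit 1) (p (nat_lit 0x119) (nat_lit 0) (p (nat_lit 0xc9) (nat_lit 0) (p (nat_lit 0x89) (nat_lit 1) (p (nat_lit 0x41) (nat_lit 0) (p (nat_lit 0x108070907889a) (nat_lit 0) (p (nat_lit 0x107868887061a) (nat_lit 0) (p (nat_lit 0x8000000000000070806878a) (nat_lit 0) (p (nat_lit 0x8000000000000068786050a) (nat_lit 0) (p (nat_lit 0x10507058682) (nat_lit 0) (p (nat_lit 0x10486850402) (nat_lit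 0) (p (nat_lit 0x16000c) (nat_lit 0) (p (nat_lit 0x160004) (nat_lit 0) (p (nat_lit 0x50612) (nat_lit 0) (p (nat_lit 0x38592) (nat_lit 0) (p (nat_lit 0x40492) (nat_lit 0) (p (nat_lit 0x28412) (nat_lit 0) (p (nat_lit 0x30292) (nat_lit 0) (p (nat_lit 0x18212) (nat_lit 0) (p (nat_lit 0x20092) (nat_lit 0) (p (nat_lit 0x8012) (nat_lit 0) pn))))))))))))))))))))))) :=
  Cl.node (nat_lit 0x200014) (nat_lit 2) (by decide +kernel) (ClAll.succ (ClAll.succ ClAll.zero s36) s37)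

def n29 : Cl (O (nat_lit 4)) (R (nat_lit 104577))
    (p (nat_lit 0xd1) (nat_lit 1) (p (nat_lit 0xc1) (nat_lit 0) (p (nat_lit 0x101) (nat_lit 1) (p (nat_lit 0x119) (nat_lit 0) (p (nat_lit 0xc9) (nat_lit 0) (p (nat_lit 0x89) (nat_lit 1) (p (nat_lit 0x41) (nat_lit 0) (p (nat_lit 0x108070907889a) (nat_lit 0) (p (nat_lit 0x107868887061a) (nat_lit 0) (p (nat_lit 0x8000000000000070806878a) (nat_lit 0) (p (nat_lit 0x8000000000000068786050a) (nat_lit 0) (p (nat_lit 0x10507058682) (nat_lit 0) (p (nat_lit 0x10486850402) (nat_lit 0) (p (nat_lit 0x16000c) (nat_lit 0) (p (nat_lit 0x160004) (nat_lit 0) (p (nat_lit 0x50612) (nat_lit 0) (p (nat_lit 0x38592) (nat_lit 0) (p (nat_lit 0x40492) (nat_lit 0) (p (nat_lit 0x28412) (nat_lit 0) (p (nat_lit 0x30292) (nat_lit 0) (p (nat_lit 0x18212) (nat_lit 0) (p (nat_lit 0x20092) (nat_lit 0) (p (nat_lit 0x8012) (nat_lit 0) pn))))))))))))))))))))))) :=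
  Cl.node (nat_lit 0x200014) (nat_lit 2) (by decide +kernel) (ClAll.succ (ClAll.succ ClAll.zero s38) n18)

def n30 : Cl (O (nat_lit 4)) (R (nat_lit 104577))
    (p (nat_lit 0x111) (nat_lit 1) (p (nat_lit 0x101) (nat_lit 0) (p (nat_lit 0xc1) (nat_lit 1) (p (nat_lit 0x119) (nat_lit 1) (p (nat_lit 0xc9) (nat_lit 0) (p (nat_lit 0x89) (nat_lit 1) (p (nat_lit 0x41) (nat_lit 0) (p (nat_lit 0x108070907889a) (nat_lit 0) (p (nat_lit 0x107868887061a) (nat_lit 0) (p (nat_lit 0x8000000000000070806878a) (nat_lit 0) (p (nat_lit 0x8000000000000068786050a) (nat_lit 0) (p (nat_lit 0x10507058682) (nat_lit 0) (p (nat_lit 0x10486850402) (nat_lit 0) (p (nat_lit 0x16000c) (nat_lit 0) (p (nat_lit 0x160004) (nat_lit 0) (p (nat_lit 0x50612) (nat_lit 0) (p (nat_lit 0x38592) (nat_lit 0) (p (nat_lit 0x40492) (nat_lit 0) (p (nat_lit 0x28412) (nat_lit 0) (p (nat_lit 0x30292) (nat_lit 0) (p (nat_lit 0x18212) (nat_lit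 0) (p (nat_lit 0x20092) (nat_lit 0) (p (nat_lit 0x8012) (nat_lit 0) pn))))))))))))))))))))))) :=
  Cl.node (nat_lit 0x200014) (nat_lit 2) (by decide +kernel) (ClAll.succ (ClAll.succ ClAll.zero s49) n19)

def n31 : Cl (O (nat_lit 4)) (R (nat_lit 104577))
    (p (nat_lit 0x89) (nat_lit 1) (p (nat_lit 0xc1) (nat_lit 1) (p (nat_lit 0x101) (nat_lit 1) (p (nat_lit 0x119) (nat_lit 0) (p (nat_lit 0xd1) (nat_lit 0) (p (nat_lit 0x81) (nat_lit 0) (p (nat_lit 0x41) (nat_lit 1) (p (nat_lit 0x108070907889a) (nat_lit 0) (p (nat_lit 0x107868887061a) (nat_lit 0) (p (nat_lit 0x8000000000000070806878a) (nat_lit 0) (p (nat_lit 0x8000000000000068786050a) (nat_lit 0) (p (nat_lit 0x10507058682) (nat_lit 0) (p (nat_lit 0x10486850402) (nat_lit 0) (p (nat_lit 0x16000c) (nat_lit 0) (p (nat_lit 0x160004) (nat_lit 0) (p (nat_lit 0x50612) (nat_lit 0) (p (nat_lit 0x38592) (nat_lit 0) (p (nat_lit 0x40492) (nat_lit 0)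 (p (nat_lit 0x28412) (nat_lit 0) (p (nat_lit 0x30292) (nat_lit 0) (p (nat_lit 0x18212) (nat_lit 0) (p (nat_lit 0x20092) (nat_lit 0) (p (nat_lit 0x8012) (nat_lit 0) pn))))))))))))))))))))))) :=
  Cl.node (nat_lit 0x200014) (nat_lit 2) (by decide +kernel) (ClAll.succ (ClAll.succ ClAll.zero s63) s64)

def n32 : Cl (O (nat_lit 4)) (R (nat_lit 104577))
    (p (nat_lit 0x89) (nat_lit 1) (p (nat_lit 0xc9) (nat_lit 1) (p (nat_lit 0xc1) (nat_lit 0) (p (nat_lit 0x119) (nat_lit 1) (p (nat_lit 0xd1) (nat_lit 0) (p (nat_lit 0x81) (nat_lit 0) (p (nat_lit 0x41) (nat_lit 1) (p (nat_lit 0x108070907889a) (nat_lit 0) (p (nat_lit 0x107868887061a) (nat_lit 0) (p (nat_lit 0x8000000000000070806878a) (nat_lit 0) (p (nat_lit 0x8000000000000068786050a) (nat_lit 0) (p (nat_lit 0x10507058682) (nat_lit 0) (p (nat_lit 0x10486850402) (nat_lit 0) (p (nat_lit 0x16000c) (nat_lit 0) (p (nat_lit 0x160004) (nat_lit 0) (p (nat_lit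 0x50612) (nat_lit 0) (p (nat_lit 0x38592) (nat_lit 0) (p (nat_lit 0x40492) (nat_lit 0) (p (nat_lit 0x28412) (nat_lit 0) (p (nat_lit 0x30292) (nat_lit 0) (p (nat_lit 0x18212) (nat_lit 0) (p (nat_lit 0x20092) (nat_lit 0) (p (nat_lit 0x8012) (nat_lit 0) pn))))))))))))))))))))))) :=
  Cl.node (nat_lit 0x109) (nat_lit 2) (by decide +kernel) (ClAll.succ (ClAll.succ ClAll.zero s67) s68)

def n33 : Cl (O (nat_lit 4)) (R (nat_lit 104577))
    (p (nat_lit 0x89) (nat_lit 1) (p (nat_lit 0x101) (nat_lit 0) (p (nat_lit 0xc1) (nat_lit 1) (p (nat_lit 0x119) (nat_lit 1) (p (nat_lit 0xd1) (nat_lit 0) (p (nat_lit 0x81) (nat_lit 0) (p (nat_lit 0x41) (nat_lit 1) (p (nat_lit 0x108070907889a) (nat_lit 0) (p (nat_lit 0x107868887061a) (nat_lit 0) (p (nat_lit 0x8000000000000070806878a) (nat_lit 0) (p (nat_lit 0x8000000000000068786050a) (nat_lit 0) (p (nat_lit 0x10507058682) (nat_lit 0) (p (nat_lit 0x10486850402)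 (nat_lit 0) (p (nat_lit 0x16000c) (nat_lit 0) (p (nat_lit 0x160004) (nat_lit 0) (p (nat_lit 0x50612) (nat_lit 0) (p (nat_lit 0x38592) (nat_lit 0) (p (nat_lit 0x40492) (nat_lit 0) (p (nat_lit 0x28412) (nat_lit 0) (p (nat_lit 0x30292) (nat_lit 0) (p (nat_lit 0x18212) (nat_lit 0) (p (nat_lit 0x20092) (nat_lit 0) (p (nat_lit 0x8012) (nat_lit 0) pn))))))))))))))))))))))) :=
  Cl.node (nat_lit 0x109) (nat_lit 2) (by decide +kernel) (ClAll.succ (ClAll.succ ClAll.zero s70) s71)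

def n34 : Cl (O (nat_lit 4)) (R (nat_lit 104577))
    (p (nat_lit 0x89) (nat_lit 1) (p (nat_lit 0x101) (nat_lit 1) (p (nat_lit 0xc1) (nat_lit 1) (p (nat_lit 0x119) (nat_lit 1) (p (nat_lit 0xd1) (nat_lit 0) (p (nat_lit 0x81) (nat_lit 0) (p (nat_lit 0x41) (nat_lit 1) (p (nat_lit 0x108070907889a) (nat_lit 0) (p (nat_lit 0x107868887061a) (nat_lit 0) (p (nat_lit 0x8000000000000070806878a) (nat_lit 0) (p (nat_lit 0x8000000000000068786050a) (nat_lit 0) (p (nat_lit 0x10507058682) (nat_lit 0) (p (nat_lit 0x10486850402) (nat_lit 0) (p (nat_lit 0x16000c) (nat_lit 0) (p (nat_lit 0x160004) (nat_lit 0) (p (nat_lit 0x50612) (nat_lit 0) (p (nat_lit 0x38592) (nat_lit 0) (p (nat_lit 0x40492) (nat_lit 0) (p (nat_lit 0x28412) (nat_lit 0) (p (nat_lit 0x30292) (nat_lit 0) (p (nat_lit 0x18212) (nat_lit 0) (p (nat_lit 0x20092) (nat_lit 0) (p (nat_lit 0x8012) (nat_lit 0) pn))))))))))))))))))))))) :=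
  Cl.node (nat_lit 0x200014) (nat_lit 2) (by decide +kernel) (ClAll.succ (ClAll.succ ClAll.zero s73) s74)

def n35 : Cl (O (nat_lit 4)) (R (nat_lit 104577))
    (p (nat_lit 0xc9) (nat_lit 0) (p (nat_lit 0x89) (nat_lit 1) (p (nat_lit 0x101) (nat_lit 1) (p (nat_lit 0x111) (nat_lit 0) (p (nat_lit 0xd1) (nat_lit 1) (p (nat_lit 0x81) (nat_lit 0) (p (nat_lit 0x41) (nat_lit 1) (p (nat_lit 0x108070907889a) (nat_lit 0) (p (nat_lit 0x107868887061a) (nat_lit 0) (p (nat_lit 0x8000000000000070806878a) (nat_lit 0) (p (nat_lit 0x8000000000000068786050a) (nat_lit 0) (p (nat_lit 0x10507058682) (nat_lit 0) (p (nat_lit 0x10486850402) (nat_lit 0) (p (nat_lit 0x16000c) (nat_lit 0) (p (nat_lit 0x160004) (nat_lit 0) (p (nat_lit 0x50612) (nat_lit 0) (p (nat_lit 0x38592) (nat_lit 0) (p (nat_lit 0x40492) (nat_lit 0) (p (nat_lit 0x28412) (nat_lit 0) (p (nat_lit 0x30292) (nat_lit 0) (p (nat_lit 0x18212) (nat_lit 0)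 (p (nat_lit 0x20092) (nat_lit 0) (p (nat_lit 0x8012) (nat_lit 0) pn))))))))))))))))))))))) :=
  Cl.node (nat_lit 0x200014) (nat_lit 2) (by decide +kernel) (ClAll.succ (ClAll.succ ClAll.zero s78) s79)

def n36 : Cl (O (nat_lit 4)) (R (nat_lit 104577))
    (p (nat_lit 0x111) (nat_lit 1) (p (nat_lit 0x109) (nat_lit 0) (p (nat_lit 0x101) (nat_lit 0) (p (nat_lit 0x119) (nat_lit 0) (p (nat_lit 0xc1) (nat_lit 0) (p (nat_lit 0x81) (nat_lit 1) (p (nat_lit 0x41) (nat_lit 1) (p (nat_lit 0x108070907889a) (nat_lit 0) (p (nat_lit 0x107868887061a) (nat_lit 0) (p (nat_lit 0x8000000000000070806878a) (nat_lit 0) (p (nat_lit 0x8000000000000068786050a) (nat_lit 0) (p (nat_lit 0x10507058682) (nat_lit 0) (p (nat_lit 0x10486850402) (nat_lit 0) (p (nat_lit 0x16000c) (nat_lit 0) (p (nat_lit 0x160004) (nat_lit 0) (p (nat_lit 0x50612) (nat_lit 0) (p (nat_lit 0x38592) (nat_lit 0) (p (nat_lit 0x40492) (nat_lit 0) (p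 (nat_lit 0x28412) (nat_lit 0) (p (nat_lit 0x30292) (nat_lit 0) (p (nat_lit 0x18212) (nat_lit 0) (p (nat_lit 0x20092) (nat_lit 0) (p (nat_lit 0x8012) (nat_lit 0) pn))))))))))))))))))))))) :=
  Cl.node (nat_lit 0xd1) (nat_lit 2) (by decide +kernel) (ClAll.succ (ClAll.succ ClAll.zero s83) n20)

def n37 : Cl (O (nat_lit 4)) (R (nat_lit 104577))
    (p (nat_lit 0xd1) (nat_lit 0) (p (nat_lit 0xc9) (nat_lit 0) (p (nat_lit 0x101) (nat_lit 1) (p (nat_lit 0x119) (nat_lit 0) (p (nat_lit 0xc1) (nat_lit 0) (p (nat_lit 0x81) (nat_lit 1) (p (nat_lit 0x41) (nat_lit 1) (p (nat_lit 0x108070907889a) (nat_lit 0) (p (nat_lit 0x107868887061a) (nat_lit 0) (p (nat_lit 0x8000000000000070806878a) (nat_lit 0) (p (nat_lit 0x8000000000000068786050a) (nat_lit 0) (p (nat_lit 0x10507058682) (nat_lit 0) (p (nat_lit 0x10486850402) (nat_lit 0) (p (nat_lit 0x16000c) (nat_lit 0) (p (nat_lit 0x160004) (nat_lit 0) (p (nat_lit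 0x50612) (nat_lit 0) (p (nat_lit 0x38592) (nat_lit 0) (p (nat_lit 0x40492) (nat_lit 0) (p (nat_lit 0x28412) (nat_lit 0) (p (nat_lit 0x30292) (nat_lit 0) (p (nat_lit 0x18212) (nat_lit 0) (p (nat_lit 0x20092) (nat_lit 0) (p (nat_lit 0x8012) (nat_lit 0) pn))))))))))))))))))))))) :=
  Cl.node (nat_lit 0x200014) (nat_lit 2) (by decide +kernel) (ClAll.succ (ClAll.succ ClAll.zero s88) s89)

def n38 : Cl (O (nat_lit 4)) (R (nat_lit 104577))
    (p (nat_lit 0xd1) (nat_lit 1) (p (nat_lit 0xc9) (nat_lit 0) (p (nat_lit 0x101) (nat_lit 1) (p (nat_lit 0x119) (nat_lit 0) (p (nat_lit 0xc1) (nat_lit 0) (p (nat_lit 0x81) (nat_lit 1) (p (nat_lit 0x41) (nat_lit 1) (p (nat_lit 0x108070907889a) (nat_lit 0) (p (nat_lit 0x107868887061a) (nat_lit 0) (p (nat_lit 0x8000000000000070806878a) (nat_lit 0) (p (nat_lit 0x8000000000000068786050a) (nat_lit 0) (p (nat_lit 0x10507058682) (nat_lit 0) (p (nat_lit 0x10486850402)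 (nat_lit 0) (p (nat_lit 0x16000c) (nat_lit 0) (p (nat_lit 0x160004) (nat_lit 0) (p (nat_lit 0x50612) (nat_lit 0) (p (nat_lit 0x38592) (nat_lit 0) (p (nat_lit 0x40492) (nat_lit 0) (p (nat_lit 0x28412) (nat_lit 0) (p (nat_lit 0x30292) (nat_lit 0) (p (nat_lit 0x18212) (nat_lit 0) (p (nat_lit 0x20092) (nat_lit 0) (p (nat_lit 0x8012) (nat_lit 0) pn))))))))))))))))))))))) :=
  Cl.node (nat_lit 0x200014) (nat_lit 2) (by decide +kernel) (ClAll.succ (ClAll.succ ClAll.zero s90) n21)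

def n39 : Cl (O (nat_lit 4)) (R (nat_lit 104577))
    (p (nat_lit 0x111) (nat_lit 1) (p (nat_lit 0x109) (nat_lit 0) (p (nat_lit 0xc9) (nat_lit 1) (p (nat_lit 0x119) (nat_lit 1) (p (nat_lit 0xc1) (nat_lit 0) (p (nat_lit 0x81) (nat_lit 1) (p (nat_lit 0x41) (nat_lit 1) (p (nat_lit 0x108070907889a) (nat_lit 0) (p (nat_lit 0x107868887061a) (nat_lit 0) (p (nat_lit 0x8000000000000070806878a) (nat_lit 0) (p (nat_lit 0x8000000000000068786050a) (nat_lit 0) (p (nat_lit 0x10507058682) (nat_lit 0) (p (nat_lit 0x10486850402) (nat_lit 0) (p (nat_lit 0x16000c) (nat_lit 0) (p (nat_lit 0x160004) (nat_lit 0) (p (nat_lit 0x50612) (nat_lit 0) (p (nat_lit 0x38592) (nat_lit 0) (p (nat_lit 0x40492) (nat_lit 0) (p (nat_lit 0x28412) (nat_lit 0) (p (nat_lit 0x30292) (nat_lit 0) (p (nat_lit 0x18212) (nat_lit 0) (p (nat_lit 0x20092) (nat_lit 0) (p (nat_lit 0x8012) (nat_lit 0) pn))))))))))))))))))))))) :=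
  Cl.node (nat_lit 0x200014) (nat_lit 2) (by decide +kernel) (ClAll.succ (ClAll.succ ClAll.zero s101) n22)

def n40 : Cl (O (nat_lit 4)) (R (nat_lit 104577))
    (p (nat_lit 0x109) (nat_lit 1) (p (nat_lit 0x101) (nat_lit 0) (p (nat_lit 0x119) (nat_lit 0) (p (nat_lit 0xd1) (nat_lit 0) (p (nat_lit 0x89) (nat_lit 0) (p (nat_lit 0x41) (nat_lit 0) (p (nat_lit 0x108070907889a) (nat_lit 0) (p (nat_lit 0x107868887061a) (nat_lit 0) (p (nat_lit 0x8000000000000070806878a) (nat_lit 0) (p (nat_lit 0x8000000000000068786050a) (nat_lit 0) (p (nat_lit 0x10507058682) (nat_lit 0) (p (nat_lit 0x10486850402) (nat_lit 0) (p (nat_lit 0x16000c) (nat_lit 0) (p (nat_lit 0x160004) (nat_lit 0) (p (nat_lit 0x50612) (nat_lit 0) (p (nat_lit 0x38592) (nat_lit 0) (p (nat_lit 0x40492) (nat_lit 0) (p (nat_lit 0x28412) (nat_lit 0) (p (nat_lit 0x30292) (nat_lit 0) (p (nat_lit 0x18212) (nat_lit 0) (p (nat_lit 0x20092) (nat_lit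 0) (p (nat_lit 0x8012) (nat_lit 0) pn)))))))))))))))))))))) :=
  Cl.node (nat_lit 0xc9) (nat_lit 2) (by decide +kernel) (ClAll.succ (ClAll.succ ClAll.zero s1) n23)

def n41 : Cl (O (nat_lit 4)) (R (nat_lit 104577))
    (p (nat_lit 0x81) (nat_lit 0) (p (nat_lit 0x101) (nat_lit 1) (p (nat_lit 0x119) (nat_lit 0) (p (nat_lit 0xd1) (nat_lit 0) (p (nat_lit 0x89) (nat_lit 0) (p (nat_lit 0x41) (nat_lit 0) (p (nat_lit 0x108070907889a) (nat_lit 0) (p (nat_lit 0x107868887061a) (nat_lit 0) (p (nat_lit 0x8000000000000070806878a) (nat_lit 0) (p (nat_lit 0x8000000000000068786050a) (nat_lit 0) (p (nat_lit 0x10507058682) (nat_lit 0) (p (nat_lit 0x10486850402) (nat_lit 0) (p (nat_lit 0x16000c) (nat_lit 0) (p (nat_lit 0x160004) (nat_lit 0) (p (nat_lit 0x50612) (nat_lit 0) (p (nat_lit 0x38592) (nat_lit 0) (p (nat_lit 0x40492) (nat_lit 0) (p (nat_lit 0x28412) (nat_lit 0) (p (nat_lit 0x30292) (nat_lit 0) (p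 (nat_lit 0x18212) (nat_lit 0) (p (nat_lit 0x20092) (nat_lit 0) (p (nat_lit 0x8012) (nat_lit 0) pn)))))))))))))))))))))) :=
  Cl.node (nat_lit 0xc9) (nat_lit 2) (by decide +kernel) (ClAll.succ (ClAll.succ ClAll.zero s4) s5)

def n42 : Cl (O (nat_lit 4)) (R (nat_lit 104577))
    (p (nat_lit 0x81) (nat_lit 1) (p (nat_lit 0x101) (nat_lit 1) (p (nat_lit 0x119) (nat_lit 0) (p (nat_lit 0xd1) (nat_lit 0) (p (nat_lit 0x89) (nat_lit 0) (p (nat_lit 0x41) (nat_lit 0) (p (nat_lit 0x108070907889a) (nat_lit 0) (p (nat_lit 0x107868887061a) (nat_lit 0) (p (nat_lit 0x8000000000000070806878a) (nat_lit 0) (p (nat_lit 0x8000000000000068786050a) (nat_lit 0) (p (nat_lit 0x10507058682) (nat_lit 0) (p (nat_lit 0x10486850402) (nat_lit 0) (p (nat_lit 0x16000c) (nat_lit 0) (p (nat_lit 0x160004) (nat_lit 0) (p (nat_lit 0x50612) (nat_lit 0) (p (nat_lit 0x38592) (nat_lit 0) (p (nat_lit 0x40492) (nat_lit 0) (p (nat_lit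 0x28412) (nat_lit 0) (p (nat_lit 0x30292) (nat_lit 0) (p (nat_lit 0x18212) (nat_lit 0) (p (nat_lit 0x20092) (nat_lit 0) (p (nat_lit 0x8012) (nat_lit 0) pn)))))))))))))))))))))) :=
  Cl.node (nat_lit 0xc1) (nat_lit 2) (by decide +kernel) (ClAll.succ (ClAll.succ ClAll.zero s6) s7)

def n43 : Cl (O (nat_lit 4)) (R (nat_lit 104577))
    (p (nat_lit 0x81) (nat_lit 0) (p (nat_lit 0xc1) (nat_lit 1) (p (nat_lit 0x119) (nat_lit 1) (p (nat_lit 0xd1) (nat_lit 0) (p (nat_lit 0x89) (nat_lit 0) (p (nat_lit 0x41) (nat_lit 0) (p (nat_lit 0x108070907889a) (nat_lit 0) (p (nat_lit 0x107868887061a) (nat_lit 0) (p (nat_lit 0x8000000000000070806878a) (nat_lit 0) (p (nat_lit 0x8000000000000068786050a) (nat_lit 0) (p (nat_lit 0x10507058682) (nat_lit 0) (p (nat_lit 0x10486850402) (nat_lit 0) (p (nat_lit 0x16000c) (nat_lit 0) (p (nat_lit 0x160004) (nat_lit 0) (p (nat_lit 0x50612) (nat_lit 0) (p (nat_lit 0x38592)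 (nat_lit 0) (p (nat_lit 0x40492) (nat_lit 0) (p (nat_lit 0x28412) (nat_lit 0) (p (nat_lit 0x30292) (nat_lit 0) (p (nat_lit 0x18212) (nat_lit 0) (p (nat_lit 0x20092) (nat_lit 0) (p (nat_lit 0x8012) (nat_lit 0) pn)))))))))))))))))))))) :=
  Cl.node (nat_lit 0x109) (nat_lit 2) (by decide +kernel) (ClAll.succ (ClAll.succ ClAll.zero s9) s10)

def n44 : Cl (O (nat_lit 4)) (R (nat_lit 104577))
    (p (nat_lit 0x81) (nat_lit 1) (p (nat_lit 0xc1) (nat_lit 1) (p (nat_lit 0x119) (nat_lit 1) (p (nat_lit 0xd1) (nat_lit 0) (p (nat_lit 0x89) (nat_lit 0) (p (nat_lit 0x41) (nat_lit 0) (p (nat_lit 0x108070907889a) (nat_lit 0) (p (nat_lit 0x107868887061a) (nat_lit 0) (p (nat_lit 0x8000000000000070806878a) (nat_lit 0) (p (nat_lit 0x8000000000000068786050a) (nat_lit 0) (p (nat_lit 0x10507058682) (nat_lit 0) (p (nat_lit 0x10486850402) (nat_lit 0) (p (nat_lit 0x16000c) (nat_lit 0) (p (nat_lit 0x160004) (nat_lit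 0) (p (nat_lit 0x50612) (nat_lit 0) (p (nat_lit 0x38592) (nat_lit 0) (p (nat_lit 0x40492) (nat_lit 0) (p (nat_lit 0x28412) (nat_lit 0) (p (nat_lit 0x30292) (nat_lit 0) (p (nat_lit 0x18212) (nat_lit 0) (p (nat_lit 0x20092) (nat_lit 0) (p (nat_lit 0x8012) (nat_lit 0) pn)))))))))))))))))))))) :=
  Cl.node (nat_lit 0x101) (nat_lit 2) (by decide +kernel) (ClAll.succ (ClAll.succ ClAll.zero n24) s14)

def n45 : Cl (O (nat_lit 4)) (R (nat_lit 104577))
    (p (nat_lit 0x109) (nat_lit 1) (p (nat_lit 0x101) (nat_lit 0) (p (nat_lit 0x111) (nat_lit 0) (p (nat_lit 0xd1) (nat_lit 1) (p (nat_lit 0x89) (nat_lit 0) (p (nat_lit 0x41) (nat_lit 0) (p (nat_lit 0x108070907889a) (nat_lit 0) (p (nat_lit 0x107868887061a) (nat_lit 0) (p (nat_lit 0x8000000000000070806878a) (nat_lit 0) (p (nat_lit 0x8000000000000068786050a) (nat_lit 0) (p (nat_lit 0x10507058682) (nat_lit 0) (p (nat_lit 0x10486850402) (nat_lit 0) (p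 (nat_lit 0x16000c) (nat_lit 0) (p (nat_lit 0x160004) (nat_lit 0) (p (nat_lit 0x50612) (nat_lit 0) (p (nat_lit 0x38592) (nat_lit 0) (p (nat_lit 0x40492) (nat_lit 0) (p (nat_lit 0x28412) (nat_lit 0) (p (nat_lit 0x30292) (nat_lit 0) (p (nat_lit 0x18212) (nat_lit 0) (p (nat_lit 0x20092) (nat_lit 0) (p (nat_lit 0x8012) (nat_lit 0) pn)))))))))))))))))))))) :=
  Cl.node (nat_lit 0x200014) (nat_lit 2) (by decide +kernel) (ClAll.succ (ClAll.succ ClAll.zero s16) s17)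

def n46 : Cl (O (nat_lit 4)) (R (nat_lit 104577))
    (p (nat_lit 0x81) (nat_lit 0) (p (nat_lit 0x101) (nat_lit 1) (p (nat_lit 0x111) (nat_lit 0) (p (nat_lit 0xd1) (nat_lit 1) (p (nat_lit 0x89) (nat_lit 0) (p (nat_lit 0x41) (nat_lit 0) (p (nat_lit 0x108070907889a) (nat_lit 0) (p (nat_lit 0x107868887061a) (nat_lit 0) (p (nat_lit 0x8000000000000070806878a) (nat_lit 0) (p (nat_lit 0x8000000000000068786050a) (nat_lit 0) (p (nat_lit 0x10507058682) (nat_lit 0) (p (nat_lit 0x10486850402) (nat_lit 0) (p (nat_lit 0x16000c) (nat_lit 0) (p (nat_lit 0x160004) (nat_lit 0) (p (nat_lit 0x50612) (nat_lit 0) (p (nat_lit 0x38592) (nat_lit 0) (p (nat_lit 0x40492) (nat_lit 0) (p (nat_lit 0x28412) (nat_lit 0) (p (nat_lit 0x30292) (nat_lit 0) (p (nat_lit 0x18212) (nat_lit 0) (p (nat_lit 0x20092) (nat_lit 0) (p (nat_lit 0x8012) (nat_lit 0) pn)))))))))))))))))))))) :=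
  Cl.node (nat_lit 0x200014) (nat_lit 2) (by decide +kernel) (ClAll.succ (ClAll.succ ClAll.zero s18) s19)

def n47 : Cl (O (nat_lit 4)) (R (nat_lit 104577))
    (p (nat_lit 0x81) (nat_lit 1) (p (nat_lit 0x101) (nat_lit 1) (p (nat_lit 0x111) (nat_lit 0) (p (nat_lit 0xd1) (nat_lit 1) (p (nat_lit 0x89) (nat_lit 0) (p (nat_lit 0x41) (nat_lit 0) (p (nat_lit 0x108070907889a) (nat_lit 0) (p (nat_lit 0x107868887061a) (nat_lit 0) (p (nat_lit 0x8000000000000070806878a) (nat_lit 0) (p (nat_lit 0x8000000000000068786050a) (nat_lit 0) (p (nat_lit 0x10507058682) (nat_lit 0) (p (nat_lit 0x10486850402) (nat_lit 0) (p (nat_lit 0x16000c) (nat_lit 0) (p (nat_lit 0x160004) (nat_lit 0) (p (nat_lit 0x50612) (nat_lit 0) (p (nat_lit 0x38592) (nat_lit 0) (p (nat_lit 0x40492) (nat_lit 0) (p (nat_lit 0x28412) (nat_lit 0) (p (nat_lit 0x30292) (nat_lit 0) (p (nat_lit 0x18212) (nat_lit 0) (p (nat_lit 0x20092) (nat_lit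 0) (p (nat_lit 0x8012) (nat_lit 0) pn)))))))))))))))))))))) :=
  Cl.node (nat_lit 0xc1) (nat_lit 2) (by decide +kernel) (ClAll.succ (ClAll.succ ClAll.zero n25) s22)

def n48 : Cl (O (nat_lit 4)) (R (nat_lit 104577))
    (p (nat_lit 0x109) (nat_lit 0) (p (nat_lit 0x101) (nat_lit 0) (p (nat_lit 0x119) (nat_lit 0) (p (nat_lit 0xc9) (nat_lit 0) (p (nat_lit 0x89) (nat_lit 1) (p (nat_lit 0x41) (nat_lit 0) (p (nat_lit 0x108070907889a) (nat_lit 0) (p (nat_lit 0x107868887061a) (nat_lit 0) (p (nat_lit 0x8000000000000070806878a) (nat_lit 0) (p (nat_lit 0x8000000000000068786050a) (nat_lit 0) (p (nat_lit 0x10507058682) (nat_lit 0) (p (nat_lit 0x10486850402) (nat_lit 0) (p (nat_lit 0x16000c) (nat_lit 0) (p (nat_lit 0x160004) (nat_lit 0) (p (nat_lit 0x50612) (nat_lit 0) (p (nat_lit 0x38592) (nat_lit 0) (p (nat_lit 0x40492) (nat_lit 0) (p (nat_lit 0x28412) (nat_lit 0) (p (nat_lit 0x30292) (nat_lit 0) (p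 (nat_lit 0x18212) (nat_lit 0) (p (nat_lit 0x20092) (nat_lit 0) (p (nat_lit 0x8012) (nat_lit 0) pn)))))))))))))))))))))) :=
  Cl.node (nat_lit 0x111) (nat_lit 2) (by decide +kernel) (ClAll.succ (ClAll.succ ClAll.zero s25) s26)

def n49 : Cl (O (nat_lit 4)) (R (nat_lit 104577))
    (p (nat_lit 0x109) (nat_lit 1) (p (nat_lit 0x101) (nat_lit 0) (p (nat_lit 0x119) (nat_lit 0) (p (nat_lit 0xc9) (nat_lit 0) (p (nat_lit 0x89) (nat_lit 1) (p (nat_lit 0x41) (nat_lit 0) (p (nat_lit 0x108070907889a) (nat_lit 0) (p (nat_lit 0x107868887061a) (nat_lit 0) (p (nat_lit 0x8000000000000070806878a) (nat_lit 0) (p (nat_lit 0x8000000000000068786050a) (nat_lit 0) (p (nat_lit 0x10507058682) (nat_lit 0) (p (nat_lit 0x10486850402) (nat_lit 0) (p (nat_lit 0x16000c) (nat_lit 0) (p (nat_lit 0x160004) (nat_lit 0) (p (nat_lit 0x50612) (nat_lit 0) (p (nat_lit 0x38592) (nat_lit 0) (p (nat_lit 0x40492) (nat_lit 0) (p (nat_lit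 0x28412) (nat_lit 0) (p (nat_lit 0x30292) (nat_lit 0) (p (nat_lit 0x18212) (nat_lit 0) (p (nat_lit 0x20092) (nat_lit 0) (p (nat_lit 0x8012) (nat_lit 0) pn)))))))))))))))))))))) :=
  Cl.node (nat_lit 0xd1) (nat_lit 2) (by decide +kernel) (ClAll.succ (ClAll.succ ClAll.zero n26) n27)

def n50 : Cl (O (nat_lit 4)) (R (nat_lit 104577))
    (p (nat_lit 0xc1) (nat_lit 0) (p (nat_lit 0x101) (nat_lit 1) (p (nat_lit 0x119) (nat_lit 0) (p (nat_lit 0xc9) (nat_lit 0) (p (nat_lit 0x89) (nat_lit 1) (p (nat_lit 0x41) (nat_lit 0) (p (nat_lit 0x108070907889a) (nat_lit 0) (p (nat_lit 0x107868887061a) (nat_lit 0) (p (nat_lit 0x8000000000000070806878a) (nat_lit 0) (p (nat_lit 0x8000000000000068786050a) (nat_lit 0) (p (nat_lit 0x10507058682) (nat_lit 0) (p (nat_lit 0x10486850402) (nat_lit 0) (p (nat_lit 0x16000c) (nat_lit 0) (p (nat_lit 0x160004) (nat_lit 0) (p (nat_lit 0x50612) (nat_lit 0) (p (nat_lit 0x38592)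 (nat_lit 0) (p (nat_lit 0x40492) (nat_lit 0) (p (nat_lit 0x28412) (nat_lit 0) (p (nat_lit 0x30292) (nat_lit 0) (p (nat_lit 0x18212) (nat_lit 0) (p (nat_lit 0x20092) (nat_lit 0) (p (nat_lit 0x8012) (nat_lit 0) pn)))))))))))))))))))))) :=
  Cl.node (nat_lit 0xd1) (nat_lit 2) (by decide +kernel) (ClAll.succ (ClAll.succ ClAll.zero n28) n29)

def n51 : Cl (O (nat_lit 4)) (R (nat_lit 104577))
    (p (nat_lit 0x101) (nat_lit 0) (p (nat_lit 0xc1) (nat_lit 1) (p (nat_lit 0x119) (nat_lit 1) (p (nat_lit 0xc9) (nat_lit 0) (p (nat_lit 0x89) (nat_lit 1) (p (nat_lit 0x41) (nat_lit 0) (p (nat_lit 0x108070907889a) (nat_lit 0) (p (nat_lit 0x107868887061a) (nat_lit 0) (p (nat_lit 0x8000000000000070806878a) (nat_lit 0) (p (nat_lit 0x8000000000000068786050a) (nat_lit 0) (p (nat_lit 0x10507058682) (nat_lit 0) (p (nat_lit 0x10486850402) (nat_lit 0) (p (nat_lit 0x16000c) (nat_lit 0) (p (nat_lit 0x160004) (nat_lit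 0) (p (nat_lit 0x50612) (nat_lit 0) (p (nat_lit 0x38592) (nat_lit 0) (p (nat_lit 0x40492) (nat_lit 0) (p (nat_lit 0x28412) (nat_lit 0) (p (nat_lit 0x30292) (nat_lit 0) (p (nat_lit 0x18212) (nat_lit 0) (p (nat_lit 0x20092) (nat_lit 0) (p (nat_lit 0x8012) (nat_lit 0) pn)))))))))))))))))))))) :=
  Cl.node (nat_lit 0x111) (nat_lit 2) (by decide +kernel) (ClAll.succ (ClAll.succ ClAll.zero s48) n30)

def n52 : Cl (O (nat_lit 4)) (R (nat_lit 104577))
    (p (nat_lit 0xc1) (nat_lit 1) (p (nat_lit 0x101) (nat_lit 1) (p (nat_lit 0x119) (nat_lit 0) (p (nat_lit 0xd1) (nat_lit 0) (p (nat_lit 0x81) (nat_lit 0) (p (nat_lit 0x41) (nat_lit 1) (p (nat_lit 0x108070907889a) (nat_lit 0) (p (nat_lit 0x107868887061a) (nat_lit 0) (p (nat_lit 0x8000000000000070806878a) (nat_lit 0) (p (nat_lit 0x8000000000000068786050a) (nat_lit 0) (p (nat_lit 0x10507058682) (nat_lit 0) (p (nat_lit 0x10486850402) (nat_lit 0) (p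 (nat_lit 0x16000c) (nat_lit 0) (p (nat_lit 0x160004) (nat_lit 0) (p (nat_lit 0x50612) (nat_lit 0) (p (nat_lit 0x38592) (nat_lit 0) (p (nat_lit 0x40492) (nat_lit 0) (p (nat_lit 0x28412) (nat_lit 0) (p (nat_lit 0x30292) (nat_lit 0) (p (nat_lit 0x18212) (nat_lit 0) (p (nat_lit 0x20092) (nat_lit 0) (p (nat_lit 0x8012) (nat_lit 0) pn)))))))))))))))))))))) :=
  Cl.node (nat_lit 0x89) (nat_lit 2) (by decide +kernel) (ClAll.succ (ClAll.succ ClAll.zero s62) n31)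

def n53 : Cl (O (nat_lit 4)) (R (nat_lit 104577))
    (p (nat_lit 0xc9) (nat_lit 1) (p (nat_lit 0xc1) (nat_lit 0) (p (nat_lit 0x119) (nat_lit 1) (p (nat_lit 0xd1) (nat_lit 0) (p (nat_lit 0x81) (nat_lit 0) (p (nat_lit 0x41) (nat_lit 1) (p (nat_lit 0x108070907889a) (nat_lit 0) (p (nat_lit 0x107868887061a) (nat_lit 0) (p (nat_lit 0x8000000000000070806878a) (nat_lit 0) (p (nat_lit 0x8000000000000068786050a) (nat_lit 0) (p (nat_lit 0x10507058682) (nat_lit 0) (p (nat_lit 0x10486850402) (nat_lit 0) (p (nat_lit 0x16000c) (nat_lit 0) (p (nat_lit 0x160004) (nat_lit 0) (p (nat_lit 0x50612) (nat_lit 0) (p (nat_lit 0x38592) (nat_lit 0) (p (nat_lit 0x40492) (nat_lit 0) (p (nat_lit 0x28412) (nat_lit 0) (p (nat_lit 0x30292) (nat_lit 0) (p (nat_lit 0x18212) (nat_lit 0) (p (nat_lit 0x20092) (nat_lit 0) (p (nat_lit 0x8012) (nat_lit 0) pn)))))))))))))))))))))) :=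
  Cl.node (nat_lit 0x89) (nat_lit 2) (by decide +kernel) (ClAll.succ (ClAll.succ ClAll.zero s66) n32)

def n54 : Cl (O (nat_lit 4)) (R (nat_lit 104577))
    (p (nat_lit 0x101) (nat_lit 0) (p (nat_lit 0xc1) (nat_lit 1) (p (nat_lit 0x119) (nat_lit 1) (p (nat_lit 0xd1) (nat_lit 0) (p (nat_lit 0x81) (nat_lit 0) (p (nat_lit 0x41) (nat_lit 1) (p (nat_lit 0x108070907889a) (nat_lit 0) (p (nat_lit 0x107868887061a) (nat_lit 0) (p (nat_lit 0x8000000000000070806878a) (nat_lit 0) (p (nat_lit 0x8000000000000068786050a) (nat_lit 0) (p (nat_lit 0x10507058682) (nat_lit 0) (p (nat_lit 0x10486850402) (nat_lit 0) (p (nat_lit 0x16000c) (nat_lit 0) (p (nat_lit 0x160004) (nat_lit 0) (p (nat_lit 0x50612) (nat_lit 0) (p (nat_lit 0x38592) (nat_lit 0) (p (nat_lit 0x40492) (nat_lit 0) (p (nat_lit 0x28412) (nat_lit 0) (p (nat_lit 0x30292) (nat_lit 0) (p (nat_lit 0x18212) (nat_lit 0) (p (nat_lit 0x20092) (nat_lit 0)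 (p (nat_lit 0x8012) (nat_lit 0) pn)))))))))))))))))))))) :=
  Cl.node (nat_lit 0x89) (nat_lit 2) (by decide +kernel) (ClAll.succ (ClAll.succ ClAll.zero s69) n33)

def n55 : Cl (O (nat_lit 4)) (R (nat_lit 104577))
    (p (nat_lit 0x101) (nat_lit 1) (p (nat_lit 0xc1) (nat_lit 1) (p (nat_lit 0x119) (nat_lit 1) (p (nat_lit 0xd1) (nat_lit 0) (p (nat_lit 0x81) (nat_lit 0) (p (nat_lit 0x41) (nat_lit 1) (p (nat_lit 0x108070907889a) (nat_lit 0) (p (nat_lit 0x107868887061a) (nat_lit 0) (p (nat_lit 0x8000000000000070806878a) (nat_lit 0) (p (nat_lit 0x8000000000000068786050a) (nat_lit 0) (p (nat_lit 0x10507058682) (nat_lit 0) (p (nat_lit 0x10486850402) (nat_lit 0) (p (nat_lit 0x16000c) (nat_lit 0) (p (nat_lit 0x160004) (nat_lit 0) (p (nat_lit 0x50612) (nat_lit 0) (p (nat_lit 0x38592) (nat_lit 0) (p (nat_lit 0x40492) (nat_lit 0) (p (nat_lit 0x28412) (nat_lit 0) (p (nat_lit 0x30292) (nat_lit 0) (p (nat_lit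 0x18212) (nat_lit 0) (p (nat_lit 0x20092) (nat_lit 0) (p (nat_lit 0x8012) (nat_lit 0) pn)))))))))))))))))))))) :=
  Cl.node (nat_lit 0x89) (nat_lit 2) (by decide +kernel) (ClAll.succ (ClAll.succ ClAll.zero s72) n34)

def n56 : Cl (O (nat_lit 4)) (R (nat_lit 104577))
    (p (nat_lit 0x89) (nat_lit 1) (p (nat_lit 0x101) (nat_lit 1) (p (nat_lit 0x111) (nat_lit 0) (p (nat_lit 0xd1) (nat_lit 1) (p (nat_lit 0x81) (nat_lit 0) (p (nat_lit 0x41) (nat_lit 1) (p (nat_lit 0x108070907889a) (nat_lit 0) (p (nat_lit 0x107868887061a) (nat_lit 0) (p (nat_lit 0x8000000000000070806878a) (nat_lit 0) (p (nat_lit 0x8000000000000068786050a) (nat_lit 0) (p (nat_lit 0x10507058682) (nat_lit 0) (p (nat_lit 0x10486850402) (nat_lit 0) (p (nat_lit 0x16000c) (nat_lit 0) (p (nat_lit 0x160004) (nat_lit 0) (p (nat_lit 0x50612) (nat_lit 0) (p (nat_lit 0x38592) (nat_lit 0) (p (nat_lit 0x40492) (nat_lit 0) (p (nat_lit 0x28412)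 (nat_lit 0) (p (nat_lit 0x30292) (nat_lit 0) (p (nat_lit 0x18212) (nat_lit 0) (p (nat_lit 0x20092) (nat_lit 0) (p (nat_lit 0x8012) (nat_lit 0) pn)))))))))))))))))))))) :=
  Cl.node (nat_lit 0xc9) (nat_lit 2) (by decide +kernel) (ClAll.succ (ClAll.succ ClAll.zero n35) s80)

def n57 : Cl (O (nat_lit 4)) (R (nat_lit 104577))
    (p (nat_lit 0x109) (nat_lit 0) (p (nat_lit 0x101) (nat_lit 0) (p (nat_lit 0x119) (nat_lit 0) (p (nat_lit 0xc1) (nat_lit 0) (p (nat_lit 0x81) (nat_lit 1) (p (nat_lit 0x41) (nat_lit 1) (p (nat_lit 0x108070907889a) (nat_lit 0) (p (nat_lit 0x107868887061a) (nat_lit 0) (p (nat_lit 0x8000000000000070806878a) (nat_lit 0) (p (nat_lit 0x8000000000000068786050a) (nat_lit 0) (p (nat_lit 0x10507058682) (nat_lit 0) (p (nat_lit 0x10486850402) (nat_lit 0) (p (nat_lit 0x16000c) (nat_lit 0) (p (nat_lit 0x160004) (nat_lit 0) (p (nat_lit 0x50612) (nat_lit 0) (p (nat_lit 0x38592) (nat_lit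 0) (p (nat_lit 0x40492) (nat_lit 0) (p (nat_lit 0x28412) (nat_lit 0) (p (nat_lit 0x30292) (nat_lit 0) (p (nat_lit 0x18212) (nat_lit 0) (p (nat_lit 0x20092) (nat_lit 0) (p (nat_lit 0x8012) (nat_lit 0) pn)))))))))))))))))))))) :=
  Cl.node (nat_lit 0x111) (nat_lit 2) (by decide +kernel) (ClAll.succ (ClAll.succ ClAll.zero s82) n36)

def n58 : Cl (O (nat_lit 4)) (R (nat_lit 104577))
    (p (nat_lit 0x109) (nat_lit 1) (p (nat_lit 0x101) (nat_lit 0) (p (nat_lit 0x119) (nat_lit 0) (p (nat_lit 0xc1) (nat_lit 0) (p (nat_lit 0x81) (nat_lit 1) (p (nat_lit 0x41) (nat_lit 1) (p (nat_lit 0x108070907889a) (nat_lit 0) (p (nat_lit 0x107868887061a) (nat_lit 0) (p (nat_lit 0x8000000000000070806878a) (nat_lit 0) (p (nat_lit 0x8000000000000068786050a) (nat_lit 0) (p (nat_lit 0x10507058682) (nat_lit 0) (p (nat_lit 0x10486850402) (nat_lit 0) (p (nat_lit 0x16000c) (nat_lit 0) (p (nat_lit 0x160004) (nat_lit 0)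 (p (nat_lit 0x50612) (nat_lit 0) (p (nat_lit 0x38592) (nat_lit 0) (p (nat_lit 0x40492) (nat_lit 0) (p (nat_lit 0x28412) (nat_lit 0) (p (nat_lit 0x30292) (nat_lit 0) (p (nat_lit 0x18212) (nat_lit 0) (p (nat_lit 0x20092) (nat_lit 0) (p (nat_lit 0x8012) (nat_lit 0) pn)))))))))))))))))))))) :=
  Cl.node (nat_lit 0xc9) (nat_lit 2) (by decide +kernel) (ClAll.succ (ClAll.succ ClAll.zero s86) s87)

def n59 : Cl (O (nat_lit 4)) (R (nat_lit 104577))
    (p (nat_lit 0xc9) (nat_lit 0) (p (nat_lit 0x101) (nat_lit 1) (p (nat_lit 0x119) (nat_lit 0) (p (nat_lit 0xc1) (nat_lit 0) (p (nat_lit 0x81) (nat_lit 1) (p (nat_lit 0x41) (nat_lit 1) (p (nat_lit 0x108070907889a) (nat_lit 0) (p (nat_lit 0x107868887061a) (nat_lit 0) (p (nat_lit 0x8000000000000070806878a) (nat_lit 0) (p (nat_lit 0x8000000000000068786050a) (nat_lit 0) (p (nat_lit 0x10507058682) (nat_lit 0) (p (nat_lit 0x10486850402) (nat_lit 0) (p (nat_lit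 0x16000c) (nat_lit 0) (p (nat_lit 0x160004) (nat_lit 0) (p (nat_lit 0x50612) (nat_lit 0) (p (nat_lit 0x38592) (nat_lit 0) (p (nat_lit 0x40492) (nat_lit 0) (p (nat_lit 0x28412) (nat_lit 0) (p (nat_lit 0x30292) (nat_lit 0) (p (nat_lit 0x18212) (nat_lit 0) (p (nat_lit 0x20092) (nat_lit 0) (p (nat_lit 0x8012) (nat_lit 0) pn)))))))))))))))))))))) :=
  Cl.node (nat_lit 0xd1) (nat_lit 2) (by decide +kernel) (ClAll.succ (ClAll.succ ClAll.zero n37) n38)

def n60 : Cl (O (nat_lit 4)) (R (nat_lit 104577))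
    (p (nat_lit 0xd1) (nat_lit 1) (p (nat_lit 0xc9) (nat_lit 0) (p (nat_lit 0x119) (nat_lit 1) (p (nat_lit 0xc1) (nat_lit 0) (p (nat_lit 0x81) (nat_lit 1) (p (nat_lit 0x41) (nat_lit 1) (p (nat_lit 0x108070907889a) (nat_lit 0) (p (nat_lit 0x107868887061a) (nat_lit 0) (p (nat_lit 0x8000000000000070806878a) (nat_lit 0) (p (nat_lit 0x8000000000000068786050a) (nat_lit 0) (p (nat_lit 0x10507058682) (nat_lit 0) (p (nat_lit 0x10486850402) (nat_lit 0) (p (nat_lit 0x16000c) (nat_lit 0) (p (nat_lit 0x160004) (nat_lit 0) (p (nat_lit 0x50612) (nat_lit 0) (p (nat_lit 0x38592) (nat_lit 0) (p (nat_lit 0x40492) (nat_lit 0) (p (nat_lit 0x28412) (nat_lit 0) (p (nat_lit 0x30292) (nat_lit 0) (p (nat_lit 0x18212) (nat_lit 0) (p (nat_lit 0x20092) (nat_lit 0) (p (nat_lit 0x8012) (nat_lit 0) pn)))))))))))))))))))))) :=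
  Cl.node (nat_lit 0x111) (nat_lit 2) (by decide +kernel) (ClAll.succ (ClAll.succ ClAll.zero s98) s99)

def n61 : Cl (O (nat_lit 4)) (R (nat_lit 104577))
    (p (nat_lit 0x109) (nat_lit 0) (p (nat_lit 0xc9) (nat_lit 1) (p (nat_lit 0x119) (nat_lit 1) (p (nat_lit 0xc1) (nat_lit 0) (p (nat_lit 0x81) (nat_lit 1) (p (nat_lit 0x41) (nat_lit 1) (p (nat_lit 0x108070907889a) (nat_lit 0) (p (nat_lit 0x107868887061a) (nat_lit 0) (p (nat_lit 0x8000000000000070806878a) (nat_lit 0) (p (nat_lit 0x8000000000000068786050a) (nat_lit 0) (p (nat_lit 0x10507058682) (nat_lit 0) (p (nat_lit 0x10486850402) (nat_lit 0) (p (nat_lit 0x16000c) (nat_lit 0) (p (nat_lit 0x160004) (nat_lit 0) (p (nat_lit 0x50612) (nat_lit 0) (p (nat_lit 0x38592) (nat_lit 0) (p (nat_lit 0x40492) (nat_lit 0) (p (nat_lit 0x28412) (nat_lit 0) (p (nat_lit 0x30292) (nat_lit 0) (p (nat_lit 0x18212) (nat_lit 0) (p (nat_lit 0x20092) (nat_lit 0)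 (p (nat_lit 0x8012) (nat_lit 0) pn)))))))))))))))))))))) :=
  Cl.node (nat_lit 0x111) (nat_lit 2) (by decide +kernel) (ClAll.succ (ClAll.succ ClAll.zero s100) n39)

def n62 : Cl (O (nat_lit 4)) (R (nat_lit 104577))
    (p (nat_lit 0x111) (nat_lit 0) (p (nat_lit 0x109) (nat_lit 0) (p (nat_lit 0x101) (nat_lit 0) (p (nat_lit 0xc1) (nat_lit 1) (p (nat_lit 0x81) (nat_lit 1) (p (nat_lit 0x41) (nat_lit 1) (p (nat_lit 0x108070907889a) (nat_lit 0) (p (nat_lit 0x107868887061a) (nat_lit 0) (p (nat_lit 0x8000000000000070806878a) (nat_lit 0) (p (nat_lit 0x8000000000000068786050a) (nat_lit 0) (p (nat_lit 0x10507058682) (nat_lit 0) (p (nat_lit 0x10486850402) (nat_lit 0) (p (nat_lit 0x16000c) (nat_lit 0) (p (nat_lit 0x160004) (nat_lit 0) (p (nat_lit 0x50612) (nat_lit 0) (p (nat_lit 0x38592) (nat_lit 0) (p (nat_lit 0x40492) (nat_lit 0) (p (nat_lit 0x28412) (nat_lit 0) (p (nat_lit 0x30292) (nat_lit 0) (p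 (nat_lit 0x18212) (nat_lit 0) (p (nat_lit 0x20092) (nat_lit 0) (p (nat_lit 0x8012) (nat_lit 0) pn)))))))))))))))))))))) :=
  Cl.node (nat_lit 0x119) (nat_lit 2) (by decide +kernel) (ClAll.succ (ClAll.succ ClAll.zero s107) s108)

def n63 : Cl (O (nat_lit 4)) (R (nat_lit 104577))
    (p (nat_lit 0x101) (nat_lit 0) (p (nat_lit 0x119) (nat_lit 0) (p (nat_lit 0xd1) (nat_lit 0) (p (nat_lit 0x89) (nat_lit 0) (p (nat_lit 0x41) (nat_lit 0) (p (nat_lit 0x108070907889a) (nat_lit 0) (p (nat_lit 0x107868887061a) (nat_lit 0) (p (nat_lit 0x8000000000000070806878a) (nat_lit 0) (p (nat_lit 0x8000000000000068786050a) (nat_lit 0) (p (nat_lit 0x10507058682) (nat_lit 0) (p (nat_lit 0x10486850402) (nat_lit 0) (p (nat_lit 0x16000c) (nat_lit 0) (p (nat_lit 0x160004) (nat_lit 0) (p (nat_lit 0x50612) (nat_lit 0) (p (nat_lit 0x38592) (nat_lit 0) (p (nat_lit 0x40492) (nat_lit 0) (p (nat_lit 0x28412) (nat_lit 0) (p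 (nat_lit 0x30292) (nat_lit 0) (p (nat_lit 0x18212) (nat_lit 0) (p (nat_lit 0x20092) (nat_lit 0) (p (nat_lit 0x8012) (nat_lit 0) pn))))))))))))))))))))) :=
  Cl.node (nat_lit 0x109) (nat_lit 2) (by decide +kernel) (ClAll.succ (ClAll.succ ClAll.zero s0) n40)

def n64 : Cl (O (nat_lit 4)) (R (nat_lit 104577))
    (p (nat_lit 0x101) (nat_lit 1) (p (nat_lit 0x119) (nat_lit 0) (p (nat_lit 0xd1) (nat_lit 0) (p (nat_lit 0x89) (nat_lit 0) (p (nat_lit 0x41) (nat_lit 0) (p (nat_lit 0x108070907889a) (nat_lit 0) (p (nat_lit 0x107868887061a) (nat_lit 0) (p (nat_lit 0x8000000000000070806878a) (nat_lit 0) (p (nat_lit 0x8000000000000068786050a) (nat_lit 0) (p (nat_lit 0x10507058682) (nat_lit 0) (p (nat_lit 0x10486850402) (nat_lit 0) (p (nat_lit 0x16000c) (nat_lit 0) (p (nat_lit 0x160004) (nat_lit 0) (p (nat_lit 0x50612) (nat_lit 0) (p (nat_lit 0x38592) (nat_lit 0) (p (nat_lit 0x40492) (nat_lit 0) (p (nat_lit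 0x28412) (nat_lit 0) (p (nat_lit 0x30292) (nat_lit 0) (p (nat_lit 0x18212) (nat_lit 0) (p (nat_lit 0x20092) (nat_lit 0) (p (nat_lit 0x8012) (nat_lit 0) pn))))))))))))))))))))) :=
  Cl.node (nat_lit 0x81) (nat_lit 2) (by decide +kernel) (ClAll.succ (ClAll.succ ClAll.zero n41) n42)

def n65 : Cl (O (nat_lit 4)) (R (nat_lit 104577))
    (p (nat_lit 0xc1) (nat_lit 1) (p (nat_lit 0x119) (nat_lit 1) (p (nat_lit 0xd1) (nat_lit 0) (p (nat_lit 0x89) (nat_lit 0) (p (nat_lit 0x41) (nat_lit 0) (p (nat_lit 0x108070907889a) (nat_lit 0) (p (nat_lit 0x107868887061a) (nat_lit 0) (p (nat_lit 0x8000000000000070806878a) (nat_lit 0) (p (nat_lit 0x8000000000000068786050a) (nat_lit 0) (p (nat_lit 0x10507058682) (nat_lit 0) (p (nat_lit 0x10486850402) (nat_lit 0) (p (nat_lit 0x16000c) (nat_lit 0) (p (nat_lit 0x160004) (nat_lit 0) (p (nat_lit 0x50612) (nat_lit 0) (p (nat_lit 0x38592) (nat_lit 0) (p (nat_lit 0x40492)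 (nat_lit 0) (p (nat_lit 0x28412) (nat_lit 0) (p (nat_lit 0x30292) (nat_lit 0) (p (nat_lit 0x18212) (nat_lit 0) (p (nat_lit 0x20092) (nat_lit 0) (p (nat_lit 0x8012) (nat_lit 0) pn))))))))))))))))))))) :=
  Cl.node (nat_lit 0x81) (nat_lit 2) (by decide +kernel) (ClAll.succ (ClAll.succ ClAll.zero n43) n44)

def n66 : Cl (O (nat_lit 4)) (R (nat_lit 104577))
    (p (nat_lit 0x101) (nat_lit 0) (p (nat_lit 0x111) (nat_lit 0) (p (nat_lit 0xd1) (nat_lit 1) (p (nat_lit 0x89) (nat_lit 0) (p (nat_lit 0x41) (nat_lit 0) (p (nat_lit 0x108070907889a) (nat_lit 0) (p (nat_lit 0x107868887061a) (nat_lit 0) (p (nat_lit 0x8000000000000070806878a) (nat_lit 0) (p (nat_lit 0x8000000000000068786050a) (nat_lit 0) (p (nat_lit 0x10507058682) (nat_lit 0) (p (nat_lit 0x10486850402) (nat_lit 0) (p (nat_lit 0x16000c) (nat_lit 0) (p (nat_lit 0x160004) (nat_lit 0) (p (nat_lit 0x50612) (nat_lit 0) (p (nat_lit 0x38592) (nat_lit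 0) (p (nat_lit 0x40492) (nat_lit 0) (p (nat_lit 0x28412) (nat_lit 0) (p (nat_lit 0x30292) (nat_lit 0) (p (nat_lit 0x18212) (nat_lit 0) (p (nat_lit 0x20092) (nat_lit 0) (p (nat_lit 0x8012) (nat_lit 0) pn))))))))))))))))))))) :=
  Cl.node (nat_lit 0x109) (nat_lit 2) (by decide +kernel) (ClAll.succ (ClAll.succ ClAll.zero s15) n45)

def n67 : Cl (O (nat_lit 4)) (R (nat_lit 104577))
    (p (nat_lit 0x101) (nat_lit 1) (p (nat_lit 0x111) (nat_lit 0) (p (nat_lit 0xd1) (nat_lit 1) (p (nat_lit 0x89) (nat_lit 0) (p (nat_lit 0x41) (nat_lit 0) (p (nat_lit 0x108070907889a) (nat_lit 0) (p (nat_lit 0x107868887061a) (nat_lit 0) (p (nat_lit 0x8000000000000070806878a) (nat_lit 0) (p (nat_lit 0x8000000000000068786050a) (nat_lit 0) (p (nat_lit 0x10507058682) (nat_lit 0) (p (nat_lit 0x10486850402) (nat_lit 0) (p (nat_lit 0x16000c) (nat_lit 0) (p (nat_lit 0x160004) (nat_lit 0) (p (nat_lit 0x50612) (nat_lit 0)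 (p (nat_lit 0x38592) (nat_lit 0) (p (nat_lit 0x40492) (nat_lit 0) (p (nat_lit 0x28412) (nat_lit 0) (p (nat_lit 0x30292) (nat_lit 0) (p (nat_lit 0x18212) (nat_lit 0) (p (nat_lit 0x20092) (nat_lit 0) (p (nat_lit 0x8012) (nat_lit 0) pn))))))))))))))))))))) :=
  Cl.node (nat_lit 0x81) (nat_lit 2) (by decide +kernel) (ClAll.succ (ClAll.succ ClAll.zero n46) n47)

def n68 : Cl (O (nat_lit 4)) (R (nat_lit 104577))
    (p (nat_lit 0x101) (nat_lit 0) (p (nat_lit 0x119) (nat_lit 0) (p (nat_lit 0xc9) (nat_lit 0) (p (nat_lit 0x89) (nat_lit 1) (p (nat_lit 0x41) (nat_lit 0) (p (nat_lit 0x108070907889a) (nat_lit 0) (p (nat_lit 0x107868887061a) (nat_lit 0) (p (nat_lit 0x8000000000000070806878a) (nat_lit 0) (p (nat_lit 0x8000000000000068786050a) (nat_lit 0) (p (nat_lit 0x10507058682) (nat_lit 0) (p (nat_lit 0x10486850402) (nat_lit 0) (p (nat_lit 0x16000c) (nat_lit 0) (p (nat_lit 0x160004) (nat_lit 0) (p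 (nat_lit 0x50612) (nat_lit 0) (p (nat_lit 0x38592) (nat_lit 0) (p (nat_lit 0x40492) (nat_lit 0) (p (nat_lit 0x28412) (nat_lit 0) (p (nat_lit 0x30292) (nat_lit 0) (p (nat_lit 0x18212) (nat_lit 0) (p (nat_lit 0x20092) (nat_lit 0) (p (nat_lit 0x8012) (nat_lit 0) pn))))))))))))))))))))) :=
  Cl.node (nat_lit 0x109) (nat_lit 2) (by decide +kernel) (ClAll.succ (ClAll.succ ClAll.zero n48) n49)

def n69 : Cl (O (nat_lit 4)) (R (nat_lit 104577))
    (p (nat_lit 0x101) (nat_lit 1) (p (nat_lit 0x119) (nat_lit 0) (p (nat_lit 0xc9) (nat_lit 0) (p (nat_lit 0x89) (nat_lit 1) (p (nat_lit 0x41) (nat_lit 0) (p (nat_lit 0x108070907889a) (nat_lit 0) (p (nat_lit 0x107868887061a) (nat_lit 0) (p (nat_lit 0x8000000000000070806878a) (nat_lit 0) (p (nat_lit 0x8000000000000068786050a) (nat_lit 0) (p (nat_lit 0x10507058682) (nat_lit 0) (p (nat_lit 0x10486850402) (nat_lit 0) (p (nat_lit 0x16000c) (nat_lit 0) (p (nat_lit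 0x160004) (nat_lit 0) (p (nat_lit 0x50612) (nat_lit 0) (p (nat_lit 0x38592) (nat_lit 0) (p (nat_lit 0x40492) (nat_lit 0) (p (nat_lit 0x28412) (nat_lit 0) (p (nat_lit 0x30292) (nat_lit 0) (p (nat_lit 0x18212) (nat_lit 0) (p (nat_lit 0x20092) (nat_lit 0) (p (nat_lit 0x8012) (nat_lit 0) pn))))))))))))))))))))) :=
  Cl.node (nat_lit 0xc1) (nat_lit 2) (by decide +kernel) (ClAll.succ (ClAll.succ ClAll.zero n50) s46)

def n70 : Cl (O (nat_lit 4)) (R (nat_lit 104577))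
    (p (nat_lit 0xc1) (nat_lit 1) (p (nat_lit 0x119) (nat_lit 1) (p (nat_lit 0xc9) (nat_lit 0) (p (nat_lit 0x89) (nat_lit 1) (p (nat_lit 0x41) (nat_lit 0) (p (nat_lit 0x108070907889a) (nat_lit 0) (p (nat_lit 0x107868887061a) (nat_lit 0) (p (nat_lit 0x8000000000000070806878a) (nat_lit 0) (p (nat_lit 0x8000000000000068786050a) (nat_lit 0) (p (nat_lit 0x10507058682) (nat_lit 0) (p (nat_lit 0x10486850402) (nat_lit 0) (p (nat_lit 0x16000c) (nat_lit 0) (p (nat_lit 0x160004) (nat_lit 0) (p (nat_lit 0x50612) (nat_lit 0) (p (nat_lit 0x38592) (nat_lit 0) (p (nat_lit 0x40492) (nat_lit 0) (p (nat_lit 0x28412) (nat_lit 0) (p (nat_lit 0x30292) (nat_lit 0) (p (nat_lit 0x18212) (nat_lit 0) (p (nat_lit 0x20092) (nat_lit 0) (p (nat_lit 0x8012) (nat_lit 0) pn))))))))))))))))))))) :=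
  Cl.node (nat_lit 0x101) (nat_lit 2) (by decide +kernel) (ClAll.succ (ClAll.succ ClAll.zero n51) s54)

def n71 : Cl (O (nat_lit 4)) (R (nat_lit 104577))
    (p (nat_lit 0x101) (nat_lit 0) (p (nat_lit 0x109) (nat_lit 0) (p (nat_lit 0xc9) (nat_lit 1) (p (nat_lit 0x89) (nat_lit 1) (p (nat_lit 0x41) (nat_lit 0) (p (nat_lit 0x108070907889a) (nat_lit 0) (p (nat_lit 0x107868887061a) (nat_lit 0) (p (nat_lit 0x8000000000000070806878a) (nat_lit 0) (p (nat_lit 0x8000000000000068786050a) (nat_lit 0) (p (nat_lit 0x10507058682) (nat_lit 0) (p (nat_lit 0x10486850402) (nat_lit 0) (p (nat_lit 0x16000c) (nat_lit 0) (p (nat_lit 0x160004) (nat_lit 0) (p (nat_lit 0x50612) (nat_lit 0) (p (nat_lit 0x38592) (nat_lit 0) (p (nat_lit 0x40492) (nat_lit 0) (p (nat_lit 0x28412) (nat_lit 0) (p (nat_lit 0x30292) (nat_lit 0) (p (nat_lit 0x18212) (nat_lit 0) (p (nat_lit 0x20092) (nat_lit 0) (p (nat_lit 0x8012) (nat_lit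 0) pn))))))))))))))))))))) :=
  Cl.node (nat_lit 0x111) (nat_lit 2) (by decide +kernel) (ClAll.succ (ClAll.succ ClAll.zero s55) s56)

def n72 : Cl (O (nat_lit 4)) (R (nat_lit 104577))
    (p (nat_lit 0x101) (nat_lit 0) (p (nat_lit 0x119) (nat_lit 0) (p (nat_lit 0xd1) (nat_lit 0) (p (nat_lit 0x81) (nat_lit 0) (p (nat_lit 0x41) (nat_lit 1) (p (nat_lit 0x108070907889a) (nat_lit 0) (p (nat_lit 0x107868887061a) (nat_lit 0) (p (nat_lit 0x8000000000000070806878a) (nat_lit 0) (p (nat_lit 0x8000000000000068786050a) (nat_lit 0) (p (nat_lit 0x10507058682) (nat_lit 0) (p (nat_lit 0x10486850402) (nat_lit 0) (p (nat_lit 0x16000c) (nat_lit 0) (p (nat_lit 0x160004) (nat_lit 0) (p (nat_lit 0x50612) (nat_lit 0) (p (nat_lit 0x38592) (nat_lit 0) (p (nat_lit 0x40492) (nat_lit 0) (p (nat_lit 0x28412) (nat_lit 0) (p (nat_lit 0x30292) (nat_lit 0) (p (nat_lit 0x18212) (nat_lit 0) (p (nat_lit 0x20092) (nat_lit 0)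 (p (nat_lit 0x8012) (nat_lit 0) pn))))))))))))))))))))) :=
  Cl.node (nat_lit 0x109) (nat_lit 2) (by decide +kernel) (ClAll.succ (ClAll.succ ClAll.zero s59) s60)

def n73 : Cl (O (nat_lit 4)) (R (nat_lit 104577))
    (p (nat_lit 0x101) (nat_lit 1) (p (nat_lit 0x119) (nat_lit 0) (p (nat_lit 0xd1) (nat_lit 0) (p (nat_lit 0x81) (nat_lit 0) (p (nat_lit 0x41) (nat_lit 1) (p (nat_lit 0x108070907889a) (nat_lit 0) (p (nat_lit 0x107868887061a) (nat_lit 0) (p (nat_lit 0x8000000000000070806878a) (nat_lit 0) (p (nat_lit 0x8000000000000068786050a) (nat_lit 0) (p (nat_lit 0x10507058682) (nat_lit 0) (p (nat_lit 0x10486850402) (nat_lit 0) (p (nat_lit 0x16000c) (nat_lit 0) (p (nat_lit 0x160004) (nat_lit 0) (p (nat_lit 0x50612) (nat_lit 0) (p (nat_lit 0x38592) (nat_lit 0) (p (nat_lit 0x40492) (nat_lit 0) (p (nat_lit 0x28412) (nat_lit 0) (p (nat_lit 0x30292) (nat_lit 0) (p (nat_lit 0x18212) (nat_lit 0) (p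 (nat_lit 0x20092) (nat_lit 0) (p (nat_lit 0x8012) (nat_lit 0) pn))))))))))))))))))))) :=
  Cl.node (nat_lit 0xc1) (nat_lit 2) (by decide +kernel) (ClAll.succ (ClAll.succ ClAll.zero s61) n52)

def n74 : Cl (O (nat_lit 4)) (R (nat_lit 104577))
    (p (nat_lit 0xc1) (nat_lit 0) (p (nat_lit 0x119) (nat_lit 1) (p (nat_lit 0xd1) (nat_lit 0) (p (nat_lit 0x81) (nat_lit 0) (p (nat_lit 0x41) (nat_lit 1) (p (nat_lit 0x108070907889a) (nat_lit 0) (p (nat_lit 0x107868887061a) (nat_lit 0) (p (nat_lit 0x8000000000000070806878a) (nat_lit 0) (p (nat_lit 0x8000000000000068786050a) (nat_lit 0) (p (nat_lit 0x10507058682) (nat_lit 0) (p (nat_lit 0x10486850402) (nat_lit 0) (p (nat_lit 0x16000c) (nat_lit 0) (p (nat_lit 0x160004) (nat_lit 0) (p (nat_lit 0x50612) (nat_lit 0) (p (nat_lit 0x38592) (nat_lit 0) (p (nat_lit 0x40492) (nat_lit 0) (p (nat_lit 0x28412) (nat_lit 0) (p (nat_lit 0x30292) (nat_lit 0) (p (nat_lit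 0x18212) (nat_lit 0) (p (nat_lit 0x20092) (nat_lit 0) (p (nat_lit 0x8012) (nat_lit 0) pn))))))))))))))))))))) :=
  Cl.node (nat_lit 0xc9) (nat_lit 2) (by decide +kernel) (ClAll.succ (ClAll.succ ClAll.zero s65) n53)

def n75 : Cl (O (nat_lit 4)) (R (nat_lit 104577))
    (p (nat_lit 0xc1) (nat_lit 1) (p (nat_lit 0x119) (nat_lit 1) (p (nat_lit 0xd1) (nat_lit 0) (p (nat_lit 0x81) (nat_lit 0) (p (nat_lit 0x41) (nat_lit 1) (p (nat_lit 0x108070907889a) (nat_lit 0) (p (nat_lit 0x107868887061a) (nat_lit 0) (p (nat_lit 0x8000000000000070806878a) (nat_lit 0) (p (nat_lit 0x8000000000000068786050a) (nat_lit 0) (p (nat_lit 0x10507058682) (nat_lit 0) (p (nat_lit 0x10486850402) (nat_lit 0) (p (nat_lit 0x16000c) (nat_lit 0) (p (nat_lit 0x160004) (nat_lit 0) (p (nat_lit 0x50612) (nat_lit 0) (p (nat_lit 0x38592) (nat_lit 0) (p (nat_lit 0x40492) (nat_lit 0) (p (nat_lit 0x28412) (nat_lit 0) (p (nat_lit 0x30292)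 (nat_lit 0) (p (nat_lit 0x18212) (nat_lit 0) (p (nat_lit 0x20092) (nat_lit 0) (p (nat_lit 0x8012) (nat_lit 0) pn))))))))))))))))))))) :=
  Cl.node (nat_lit 0x101) (nat_lit 2) (by decide +kernel) (ClAll.succ (ClAll.succ ClAll.zero n54) n55)

def n76 : Cl (O (nat_lit 4)) (R (nat_lit 104577))
    (p (nat_lit 0x101) (nat_lit 0) (p (nat_lit 0x111) (nat_lit 0) (p (nat_lit 0xd1) (nat_lit 1) (p (nat_lit 0x81) (nat_lit 0) (p (nat_lit 0x41) (nat_lit 1) (p (nat_lit 0x108070907889a) (nat_lit 0) (p (nat_lit 0x107868887061a) (nat_lit 0) (p (nat_lit 0x8000000000000070806878a) (nat_lit 0) (p (nat_lit 0x8000000000000068786050a) (nat_lit 0) (p (nat_lit 0x10507058682) (nat_lit 0) (p (nat_lit 0x10486850402) (nat_lit 0) (p (nat_lit 0x16000c) (nat_lit 0) (p (nat_lit 0x160004) (nat_lit 0) (p (nat_lit 0x50612) (nat_lit 0) (p (nat_lit 0x38592) (nat_lit 0) (p (nat_lit 0x40492) (nat_lit 0) (p (nat_lit 0x28412) (nat_lit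 0) (p (nat_lit 0x30292) (nat_lit 0) (p (nat_lit 0x18212) (nat_lit 0) (p (nat_lit 0x20092) (nat_lit 0) (p (nat_lit 0x8012) (nat_lit 0) pn))))))))))))))))))))) :=
  Cl.node (nat_lit 0x109) (nat_lit 2) (by decide +kernel) (ClAll.succ (ClAll.succ ClAll.zero s75) s76)

def n77 : Cl (O (nat_lit 4)) (R (nat_lit 104577))
    (p (nat_lit 0x101) (nat_lit 1) (p (nat_lit 0x111) (nat_lit 0) (p (nat_lit 0xd1) (nat_lit 1) (p (nat_lit 0x81) (nat_lit 0) (p (nat_lit 0x41) (nat_lit 1) (p (nat_lit 0x108070907889a) (nat_lit 0) (p (nat_lit 0x107868887061a) (nat_lit 0) (p (nat_lit 0x8000000000000070806878a) (nat_lit 0) (p (nat_lit 0x8000000000000068786050a) (nat_lit 0) (p (nat_lit 0x10507058682) (nat_lit 0) (p (nat_lit 0x10486850402) (nat_lit 0) (p (nat_lit 0x16000c) (nat_lit 0) (p (nat_lit 0x160004) (nat_lit 0) (p (nat_lit 0x50612) (nat_lit 0) (p (nat_lit 0x38592) (nat_lit 0) (p (nat_lit 0x40492) (nat_lit 0)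 (p (nat_lit 0x28412) (nat_lit 0) (p (nat_lit 0x30292) (nat_lit 0) (p (nat_lit 0x18212) (nat_lit 0) (p (nat_lit 0x20092) (nat_lit 0) (p (nat_lit 0x8012) (nat_lit 0) pn))))))))))))))))))))) :=
  Cl.node (nat_lit 0x89) (nat_lit 2) (by decide +kernel) (ClAll.succ (ClAll.succ ClAll.zero s77) n56)

def n78 : Cl (O (nat_lit 4)) (R (nat_lit 104577))
    (p (nat_lit 0x101) (nat_lit 0) (p (nat_lit 0x119) (nat_lit 0) (p (nat_lit 0xc1) (nat_lit 0) (p (nat_lit 0x81) (nat_lit 1) (p (nat_lit 0x41) (nat_lit 1) (p (nat_lit 0x108070907889a) (nat_lit 0) (p (nat_lit 0x107868887061a) (nat_lit 0) (p (nat_lit 0x8000000000000070806878a) (nat_lit 0) (p (nat_lit 0x8000000000000068786050a) (nat_lit 0) (p (nat_lit 0x10507058682) (nat_lit 0) (p (nat_lit 0x10486850402) (nat_lit 0) (p (nat_lit 0x16000c) (nat_lit 0) (p (nat_lit 0x160004) (nat_lit 0) (p (nat_lit 0x50612) (nat_lit 0) (p (nat_lit 0x38592) (nat_lit 0) (p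 (nat_lit 0x40492) (nat_lit 0) (p (nat_lit 0x28412) (nat_lit 0) (p (nat_lit 0x30292) (nat_lit 0) (p (nat_lit 0x18212) (nat_lit 0) (p (nat_lit 0x20092) (nat_lit 0) (p (nat_lit 0x8012) (nat_lit 0) pn))))))))))))))))))))) :=
  Cl.node (nat_lit 0x109) (nat_lit 2) (by decide +kernel) (ClAll.succ (ClAll.succ ClAll.zero n57) n58)

def n79 : Cl (O (nat_lit 4)) (R (nat_lit 104577))
    (p (nat_lit 0x101) (nat_lit 1) (p (nat_lit 0x119) (nat_lit 0) (p (nat_lit 0xc1) (nat_lit 0) (p (nat_lit 0x81) (nat_lit 1) (p (nat_lit 0x41) (nat_lit 1) (p (nat_lit 0x108070907889a) (nat_lit 0) (p (nat_lit 0x107868887061a) (nat_lit 0) (p (nat_lit 0x8000000000000070806878a) (nat_lit 0) (p (nat_lit 0x8000000000000068786050a) (nat_lit 0) (p (nat_lit 0x10507058682) (nat_lit 0) (p (nat_lit 0x10486850402) (nat_lit 0) (p (nat_lit 0x16000c) (nat_lit 0) (p (nat_lit 0x160004) (nat_lit 0) (p (nat_lit 0x50612) (nat_lit 0) (p (nat_lit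 0x38592) (nat_lit 0) (p (nat_lit 0x40492) (nat_lit 0) (p (nat_lit 0x28412) (nat_lit 0) (p (nat_lit 0x30292) (nat_lit 0) (p (nat_lit 0x18212) (nat_lit 0) (p (nat_lit 0x20092) (nat_lit 0) (p (nat_lit 0x8012) (nat_lit 0) pn))))))))))))))))))))) :=
  Cl.node (nat_lit 0xc9) (nat_lit 2) (by decide +kernel) (ClAll.succ (ClAll.succ ClAll.zero n59) s96)

def n80 : Cl (O (nat_lit 4)) (R (nat_lit 104577))
    (p (nat_lit 0xc9) (nat_lit 0) (p (nat_lit 0x119) (nat_lit 1) (p (nat_lit 0xc1) (nat_lit 0) (p (nat_lit 0x81) (nat_lit 1) (p (nat_lit 0x41) (nat_lit 1) (p (nat_lit 0x108070907889a) (nat_lit 0) (p (nat_lit 0x107868887061a) (nat_lit 0) (p (nat_lit 0x8000000000000070806878a) (nat_lit 0) (p (nat_lit 0x8000000000000068786050a) (nat_lit 0) (p (nat_lit 0x10507058682) (nat_lit 0) (p (nat_lit 0x10486850402) (nat_lit 0) (p (nat_lit 0x16000c) (nat_lit 0) (p (nat_lit 0x160004) (nat_lit 0) (p (nat_lit 0x50612)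 (nat_lit 0) (p (nat_lit 0x38592) (nat_lit 0) (p (nat_lit 0x40492) (nat_lit 0) (p (nat_lit 0x28412) (nat_lit 0) (p (nat_lit 0x30292) (nat_lit 0) (p (nat_lit 0x18212) (nat_lit 0) (p (nat_lit 0x20092) (nat_lit 0) (p (nat_lit 0x8012) (nat_lit 0) pn))))))))))))))))))))) :=
  Cl.node (nat_lit 0xd1) (nat_lit 2) (by decide +kernel) (ClAll.succ (ClAll.succ ClAll.zero s97) n60)

def n81 : Cl (O (nat_lit 4)) (R (nat_lit 104577))
    (p (nat_lit 0xc9) (nat_lit 1) (p (nat_lit 0x119) (nat_lit 1) (p (nat_lit 0xc1) (nat_lit 0) (p (nat_lit 0x81) (nat_lit 1) (p (nat_lit 0x41) (nat_lit 1) (p (nat_lit 0x108070907889a) (nat_lit 0) (p (nat_lit 0x107868887061a) (nat_lit 0) (p (nat_lit 0x8000000000000070806878a) (nat_lit 0) (p (nat_lit 0x8000000000000068786050a) (nat_lit 0) (p (nat_lit 0x10507058682) (nat_lit 0) (p (nat_lit 0x10486850402) (nat_lit 0) (p (nat_lit 0x16000c) (nat_lit 0) (p (nat_lit 0x160004) (nat_lit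 0) (p (nat_lit 0x50612) (nat_lit 0) (p (nat_lit 0x38592) (nat_lit 0) (p (nat_lit 0x40492) (nat_lit 0) (p (nat_lit 0x28412) (nat_lit 0) (p (nat_lit 0x30292) (nat_lit 0) (p (nat_lit 0x18212) (nat_lit 0) (p (nat_lit 0x20092) (nat_lit 0) (p (nat_lit 0x8012) (nat_lit 0) pn))))))))))))))))))))) :=
  Cl.node (nat_lit 0x109) (nat_lit 2) (by decide +kernel) (ClAll.succ (ClAll.succ ClAll.zero n61) s106)

def n82 : Cl (O (nat_lit 4)) (R (nat_lit 104577))
    (p (nat_lit 0x109) (nat_lit 0) (p (nat_lit 0x101) (nat_lit 0) (p (nat_lit 0xc1) (nat_lit 1) (p (nat_lit 0x81) (nat_lit 1) (p (nat_lit 0x41) (nat_lit 1) (p (nat_lit 0x108070907889a) (nat_lit 0) (p (nat_lit 0x107868887061a) (nat_lit 0) (p (nat_lit 0x8000000000000070806878a) (nat_lit 0) (p (nat_lit 0x8000000000000068786050a) (nat_lit 0) (p (nat_lit 0x10507058682) (nat_lit 0) (p (nat_lit 0x10486850402) (nat_lit 0) (p (nat_lit 0x16000c) (nat_lit 0)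 (p (nat_lit 0x160004) (nat_lit 0) (p (nat_lit 0x50612) (nat_lit 0) (p (nat_lit 0x38592) (nat_lit 0) (p (nat_lit 0x40492) (nat_lit 0) (p (nat_lit 0x28412) (nat_lit 0) (p (nat_lit 0x30292) (nat_lit 0) (p (nat_lit 0x18212) (nat_lit 0) (p (nat_lit 0x20092) (nat_lit 0) (p (nat_lit 0x8012) (nat_lit 0) pn))))))))))))))))))))) :=
  Cl.node (nat_lit 0x111) (nat_lit 2) (by decide +kernel) (ClAll.succ (ClAll.succ ClAll.zero n62) s109)

def n83 : Cl (O (nat_lit 4)) (R (nat_lit 104577))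
    (p (nat_lit 0x119) (nat_lit 0) (p (nat_lit 0xd1) (nat_lit 0) (p (nat_lit 0x89) (nat_lit 0) (p (nat_lit 0x41) (nat_lit 0) (p (nat_lit 0x108070907889a) (nat_lit 0) (p (nat_lit 0x107868887061a) (nat_lit 0) (p (nat_lit 0x8000000000000070806878a) (nat_lit 0) (p (nat_lit 0x8000000000000068786050a) (nat_lit 0) (p (nat_lit 0x10507058682) (nat_lit 0) (p (nat_lit 0x10486850402) (nat_lit 0) (p (nat_lit 0x16000c) (nat_lit 0) (p (nat_lit 0x160004) (nat_lit 0) (p (nat_lit 0x50612) (nat_lit 0) (p (nat_lit 0x38592) (nat_lit 0) (p (nat_lit 0x40492) (nat_lit 0) (p (nat_lit 0x28412) (nat_lit 0) (p (nat_lit 0x30292) (nat_lit 0) (p (nat_lit 0x18212) (nat_lit 0) (p (nat_lit 0x20092) (nat_lit 0) (p (nat_lit 0x8012) (nat_lit 0) pn)))))))))))))))))))) :=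
  Cl.node (nat_lit 0x101) (nat_lit 2) (by decide +kernel) (ClAll.succ (ClAll.succ ClAll.zero n63) n64)

def n84 : Cl (O (nat_lit 4)) (R (nat_lit 104577))
    (p (nat_lit 0x119) (nat_lit 1) (p (nat_lit 0xd1) (nat_lit 0) (p (nat_lit 0x89) (nat_lit 0) (p (nat_lit 0x41) (nat_lit 0) (p (nat_lit 0x108070907889a) (nat_lit 0) (p (nat_lit 0x107868887061a) (nat_lit 0) (p (nat_lit 0x8000000000000070806878a) (nat_lit 0) (p (nat_lit 0x8000000000000068786050a) (nat_lit 0) (p (nat_lit 0x10507058682) (nat_lit 0) (p (nat_lit 0x10486850402) (nat_lit 0) (p (nat_lit 0x16000c) (nat_lit 0) (p (nat_lit 0x160004) (nat_lit 0) (p (nat_lit 0x50612) (nat_lit 0) (p (nat_lit 0x38592) (nat_lit 0) (p (nat_lit 0x40492) (nat_lit 0) (p (nat_lit 0x28412) (nat_lit 0) (p (nat_lit 0x30292) (nat_lit 0) (p (nat_lit 0x18212) (nat_lit 0) (p (nat_lit 0x20092) (nat_lit 0) (p (nat_lit 0x8012) (nat_lit 0) pn)))))))))))))))))))) :=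
  Cl.node (nat_lit 0xc1) (nat_lit 2) (by decide +kernel) (ClAll.succ (ClAll.succ ClAll.zero s8) n65)

def n85 : Cl (O (nat_lit 4)) (R (nat_lit 104577))
    (p (nat_lit 0x111) (nat_lit 0) (p (nat_lit 0xd1) (nat_lit 1) (p (nat_lit 0x89) (nat_lit 0) (p (nat_lit 0x41) (nat_lit 0) (p (nat_lit 0x108070907889a) (nat_lit 0) (p (nat_lit 0x107868887061a) (nat_lit 0) (p (nat_lit 0x8000000000000070806878a) (nat_lit 0) (p (nat_lit 0x8000000000000068786050a) (nat_lit 0) (p (nat_lit 0x10507058682) (nat_lit 0) (p (nat_lit 0x10486850402) (nat_lit 0) (p (nat_lit 0x16000c) (nat_lit 0) (p (nat_lit 0x160004) (nat_lit 0) (p (nat_lit 0x50612) (nat_lit 0) (p (nat_lit 0x38592) (nat_lit 0) (p (nat_lit 0x40492) (nat_lit 0) (p (nat_lit 0x28412) (nat_lit 0) (p (nat_lit 0x30292) (nat_lit 0) (p (nat_lit 0x18212) (nat_lit 0) (p (nat_lit 0x20092) (nat_lit 0) (p (nat_lit 0x8012) (nat_lit 0) pn)))))))))))))))))))) :=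
  Cl.node (nat_lit 0x101) (nat_lit 2) (by decide +kernel) (ClAll.succ (ClAll.succ ClAll.zero n66) n67)

def n86 : Cl (O (nat_lit 4)) (R (nat_lit 104577))
    (p (nat_lit 0x111) (nat_lit 1) (p (nat_lit 0xd1) (nat_lit 1) (p (nat_lit 0x89) (nat_lit 0) (p (nat_lit 0x41) (nat_lit 0) (p (nat_lit 0x108070907889a) (nat_lit 0) (p (nat_lit 0x107868887061a) (nat_lit 0) (p (nat_lit 0x8000000000000070806878a) (nat_lit 0) (p (nat_lit 0x8000000000000068786050a) (nat_lit 0) (p (nat_lit 0x10507058682) (nat_lit 0) (p (nat_lit 0x10486850402) (nat_lit 0) (p (nat_lit 0x16000c) (nat_lit 0) (p (nat_lit 0x160004) (nat_lit 0) (p (nat_lit 0x50612) (nat_lit 0) (p (nat_lit 0x38592) (nat_lit 0) (p (nat_lit 0x40492) (nat_lit 0) (p (nat_lit 0x28412) (nat_lit 0) (p (nat_lit 0x30292) (nat_lit 0) (p (nat_lit 0x18212) (nat_lit 0) (p (nat_lit 0x20092) (nat_lit 0) (p (nat_lit 0x8012) (nat_lit 0) pn)))))))))))))))))))) :=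
  Cl.node (nat_lit 0x81) (nat_lit 2) (by decide +kernel) (ClAll.succ (ClAll.succ ClAll.zero s23) s24)

def n87 : Cl (O (nat_lit 4)) (R (nat_lit 104577))
    (p (nat_lit 0x119) (nat_lit 0) (p (nat_lit 0xc9) (nat_lit 0) (p (nat_lit 0x89) (nat_lit 1) (p (nat_lit 0x41) (nat_lit 0) (p (nat_lit 0x108070907889a) (nat_lit 0) (p (nat_lit 0x107868887061a) (nat_lit 0) (p (nat_lit 0x8000000000000070806878a) (nat_lit 0) (p (nat_lit 0x8000000000000068786050a) (nat_lit 0) (p (nat_lit 0x10507058682) (nat_lit 0) (p (nat_lit 0x10486850402) (nat_lit 0) (p (nat_lit 0x16000c) (nat_lit 0) (p (nat_lit 0x160004) (nat_lit 0) (p (nat_lit 0x50612) (nat_lit 0) (p (nat_lit 0x38592) (nat_lit 0) (p (nat_lit 0x40492) (nat_lit 0) (p (nat_lit 0x28412) (nat_lit 0) (p (nat_lit 0x30292) (nat_lit 0) (p (nat_lit 0x18212) (nat_lit 0) (p (nat_lit 0x20092) (nat_lit 0) (p (nat_lit 0x8012) (nat_lit 0) pn)))))))))))))))))))) :=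
  Cl.node (nat_lit 0x101) (nat_lit 2) (by decide +kernel) (ClAll.succ (ClAll.succ ClAll.zero n68) n69)

def n88 : Cl (O (nat_lit 4)) (R (nat_lit 104577))
    (p (nat_lit 0x119) (nat_lit 1) (p (nat_lit 0xc9) (nat_lit 0) (p (nat_lit 0x89) (nat_lit 1) (p (nat_lit 0x41) (nat_lit 0) (p (nat_lit 0x108070907889a) (nat_lit 0) (p (nat_lit 0x107868887061a) (nat_lit 0) (p (nat_lit 0x8000000000000070806878a) (nat_lit 0) (p (nat_lit 0x8000000000000068786050a) (nat_lit 0) (p (nat_lit 0x10507058682) (nat_lit 0) (p (nat_lit 0x10486850402) (nat_lit 0) (p (nat_lit 0x16000c) (nat_lit 0) (p (nat_lit 0x160004) (nat_lit 0) (p (nat_lit 0x50612) (nat_lit 0) (p (nat_lit 0x38592) (nat_lit 0) (p (nat_lit 0x40492) (nat_lit 0) (p (nat_lit 0x28412) (nat_lit 0) (p (nat_lit 0x30292) (nat_lit 0) (p (nat_lit 0x18212) (nat_lit 0) (p (nat_lit 0x20092) (nat_lit 0) (p (nat_lit 0x8012) (nat_lit 0) pn)))))))))))))))))))) :=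
  Cl.node (nat_lit 0xc1) (nat_lit 2) (by decide +kernel) (ClAll.succ (ClAll.succ ClAll.zero s47) n70)

def n89 : Cl (O (nat_lit 4)) (R (nat_lit 104577))
    (p (nat_lit 0x109) (nat_lit 0) (p (nat_lit 0xc9) (nat_lit 1) (p (nat_lit 0x89) (nat_lit 1) (p (nat_lit 0x41) (nat_lit 0) (p (nat_lit 0x108070907889a) (nat_lit 0) (p (nat_lit 0x107868887061a) (nat_lit 0) (p (nat_lit 0x8000000000000070806878a) (nat_lit 0) (p (nat_lit 0x8000000000000068786050a) (nat_lit 0) (p (nat_lit 0x10507058682) (nat_lit 0) (p (nat_lit 0x10486850402) (nat_lit 0) (p (nat_lit 0x16000c) (nat_lit 0) (p (nat_lit 0x160004) (nat_lit 0) (p (nat_lit 0x50612) (nat_lit 0) (p (nat_lit 0x38592) (nat_lit 0) (p (nat_lit 0x40492) (nat_lit 0) (p (nat_lit 0x28412) (nat_lit 0) (p (nat_lit 0x30292) (nat_lit 0) (p (nat_lit 0x18212) (nat_lit 0) (p (nat_lit 0x20092) (nat_lit 0) (p (nat_lit 0x8012) (nat_lit 0) pn)))))))))))))))))))) :=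
  Cl.node (nat_lit 0x101) (nat_lit 2) (by decide +kernel) (ClAll.succ (ClAll.succ ClAll.zero n71) s57)

def n90 : Cl (O (nat_lit 4)) (R (nat_lit 104577))
    (p (nat_lit 0x119) (nat_lit 0) (p (nat_lit 0xd1) (nat_lit 0) (p (nat_lit 0x81) (nat_lit 0) (p (nat_lit 0x41) (nat_lit 1) (p (nat_lit 0x108070907889a) (nat_lit 0) (p (nat_lit 0x107868887061a) (nat_lit 0) (p (nat_lit 0x8000000000000070806878a) (nat_lit 0) (p (nat_lit 0x8000000000000068786050a) (nat_lit 0) (p (nat_lit 0x10507058682) (nat_lit 0) (p (nat_lit 0x10486850402) (nat_lit 0) (p (nat_lit 0x16000c) (nat_lit 0) (p (nat_lit 0x160004) (nat_lit 0) (p (nat_lit 0x50612) (nat_lit 0) (p (nat_lit 0x38592) (nat_lit 0) (p (nat_lit 0x40492) (nat_lit 0) (p (nat_lit 0x28412) (nat_lit 0) (p (nat_lit 0x30292) (nat_lit 0) (p (nat_lit 0x18212) (nat_lit 0) (p (nat_lit 0x20092) (nat_lit 0) (p (nat_lit 0x8012) (nat_lit 0) pn)))))))))))))))))))) :=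
  Cl.node (nat_lit 0x101) (nat_lit 2) (by decide +kernel) (ClAll.succ (ClAll.succ ClAll.zero n72) n73)

def n91 : Cl (O (nat_lit 4)) (R (nat_lit 104577))
    (p (nat_lit 0x119) (nat_lit 1) (p (nat_lit 0xd1) (nat_lit 0) (p (nat_lit 0x81) (nat_lit 0) (p (nat_lit 0x41) (nat_lit 1) (p (nat_lit 0x108070907889a) (nat_lit 0) (p (nat_lit 0x107868887061a) (nat_lit 0) (p (nat_lit 0x8000000000000070806878a) (nat_lit 0) (p (nat_lit 0x8000000000000068786050a) (nat_lit 0) (p (nat_lit 0x10507058682) (nat_lit 0) (p (nat_lit 0x10486850402) (nat_lit 0) (p (nat_lit 0x16000c) (nat_lit 0) (p (nat_lit 0x160004) (nat_lit 0) (p (nat_lit 0x50612) (nat_lit 0) (p (nat_lit 0x38592) (nat_lit 0) (p (nat_lit 0x40492) (nat_lit 0) (p (nat_lit 0x28412) (nat_lit 0) (p (nat_lit 0x30292) (nat_lit 0) (p (nat_lit 0x18212) (nat_lit 0) (p (nat_lit 0x20092) (nat_lit 0) (p (nat_lit 0x8012) (nat_lit 0) pn)))))))))))))))))))) :=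
  Cl.node (nat_lit 0xc1) (nat_lit 2) (by decide +kernel) (ClAll.succ (ClAll.succ ClAll.zero n74) n75)

def n92 : Cl (O (nat_lit 4)) (R (nat_lit 104577))
    (p (nat_lit 0x111) (nat_lit 0) (p (nat_lit 0xd1) (nat_lit 1) (p (nat_lit 0x81) (nat_lit 0) (p (nat_lit 0x41) (nat_lit 1) (p (nat_lit 0x108070907889a) (nat_lit 0) (p (nat_lit 0x107868887061a) (nat_lit 0) (p (nat_lit 0x8000000000000070806878a) (nat_lit 0) (p (nat_lit 0x8000000000000068786050a) (nat_lit 0) (p (nat_lit 0x10507058682) (nat_lit 0) (p (nat_lit 0x10486850402) (nat_lit 0) (p (nat_lit 0x16000c) (nat_lit 0) (p (nat_lit 0x160004) (nat_lit 0) (p (nat_lit 0x50612) (nat_lit 0) (p (nat_lit 0x38592) (nat_lit 0) (p (nat_lit 0x40492) (nat_lit 0) (p (nat_lit 0x28412) (nat_lit 0) (p (nat_lit 0x30292) (nat_lit 0) (p (nat_lit 0x18212) (nat_lit 0) (p (nat_lit 0x20092) (nat_lit 0) (p (nat_lit 0x8012) (nat_lit 0) pn)))))))))))))))))))) :=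
  Cl.node (nat_lit 0x101) (nat_lit 2) (by decide +kernel) (ClAll.succ (ClAll.succ ClAll.zero n76) n77)

def n93 : Cl (O (nat_lit 4)) (R (nat_lit 104577))
    (p (nat_lit 0x119) (nat_lit 0) (p (nat_lit 0xc1) (nat_lit 0) (p (nat_lit 0x81) (nat_lit 1) (p (nat_lit 0x41) (nat_lit 1) (p (nat_lit 0x108070907889a) (nat_lit 0) (p (nat_lit 0x107868887061a) (nat_lit 0) (p (nat_lit 0x8000000000000070806878a) (nat_lit 0) (p (nat_lit 0x8000000000000068786050a) (nat_lit 0) (p (nat_lit 0x10507058682) (nat_lit 0) (p (nat_lit 0x10486850402) (nat_lit 0) (p (nat_lit 0x16000c) (nat_lit 0) (p (nat_lit 0x160004) (nat_lit 0) (p (nat_lit 0x50612) (nat_lit 0) (p (nat_lit 0x38592) (nat_lit 0) (p (nat_lit 0x40492) (nat_lit 0) (p (nat_lit 0x28412) (nat_lit 0) (p (nat_lit 0x30292) (nat_lit 0) (p (nat_lit 0x18212) (nat_lit 0) (p (nat_lit 0x20092) (nat_lit 0) (p (nat_lit 0x8012) (nat_lit 0) pn)))))))))))))))))))) :=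
  Cl.node (nat_lit 0x101) (nat_lit 2) (by decide +kernel) (ClAll.succ (ClAll.succ ClAll.zero n78) n79)

def n94 : Cl (O (nat_lit 4)) (R (nat_lit 104577))
    (p (nat_lit 0x119) (nat_lit 1) (p (nat_lit 0xc1) (nat_lit 0) (p (nat_lit 0x81) (nat_lit 1) (p (nat_lit 0x41) (nat_lit 1) (p (nat_lit 0x108070907889a) (nat_lit 0) (p (nat_lit 0x107868887061a) (nat_lit 0) (p (nat_lit 0x8000000000000070806878a) (nat_lit 0) (p (nat_lit 0x8000000000000068786050a) (nat_lit 0) (p (nat_lit 0x10507058682) (nat_lit 0) (p (nat_lit 0x10486850402) (nat_lit 0) (p (nat_lit 0x16000c) (nat_lit 0) (p (nat_lit 0x160004) (nat_lit 0) (p (nat_lit 0x50612) (nat_lit 0) (p (nat_lit 0x38592) (nat_lit 0) (p (nat_lit 0x40492) (nat_lit 0) (p (nat_lit 0x28412) (nat_lit 0) (p (nat_lit 0x30292) (nat_lit 0) (p (nat_lit 0x18212) (nat_lit 0) (p (nat_lit 0x20092) (nat_lit 0) (p (nat_lit 0x8012) (nat_lit 0) pn)))))))))))))))))))) :=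
  Cl.node (nat_lit 0xc9) (nat_lit 2) (by decide +kernel) (ClAll.succ (ClAll.succ ClAll.zero n80) n81)

def n95 : Cl (O (nat_lit 4)) (R (nat_lit 104577))
    (p (nat_lit 0x101) (nat_lit 0) (p (nat_lit 0xc1) (nat_lit 1) (p (nat_lit 0x81) (nat_lit 1) (p (nat_lit 0x41) (nat_lit 1) (p (nat_lit 0x108070907889a) (nat_lit 0) (p (nat_lit 0x107868887061a) (nat_lit 0) (p (nat_lit 0x8000000000000070806878a) (nat_lit 0) (p (nat_lit 0x8000000000000068786050a) (nat_lit 0) (p (nat_lit 0x10507058682) (nat_lit 0) (p (nat_lit 0x10486850402) (nat_lit 0) (p (nat_lit 0x16000c) (nat_lit 0) (p (nat_lit 0x160004) (nat_lit 0) (p (nat_lit 0x50612) (nat_lit 0) (p (nat_lit 0x38592) (nat_lit 0) (p (nat_lit 0x40492) (nat_lit 0) (p (nat_lit 0x28412) (nat_lit 0) (p (nat_lit 0x30292) (nat_lit 0) (p (nat_lit 0x18212) (nat_lit 0) (p (nat_lit 0x20092) (nat_lit 0) (p (nat_lit 0x8012) (nat_lit 0) pn)))))))))))))))))))) :=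
  Cl.node (nat_lit 0x109) (nat_lit 2) (by decide +kernel) (ClAll.succ (ClAll.succ ClAll.zero n82) s110)

def n96 : Cl (O (nat_lit 4)) (R (nat_lit 104577))
    (p (nat_lit 0xd1) (nat_lit 0) (p (nat_lit 0x89) (nat_lit 0) (p (nat_lit 0x41) (nat_lit 0) (p (nat_lit 0x108070907889a) (nat_lit 0) (p (nat_lit 0x107868887061a) (nat_lit 0) (p (nat_lit 0x8000000000000070806878a) (nat_lit 0) (p (nat_lit 0x8000000000000068786050a) (nat_lit 0) (p (nat_lit 0x10507058682) (nat_lit 0) (p (nat_lit 0x10486850402) (nat_lit 0) (p (nat_lit 0x16000c) (nat_lit 0) (p (nat_lit 0x160004) (nat_lit 0) (p (nat_lit 0x50612) (nat_lit 0) (p (nat_lit 0x38592) (nat_lit 0) (p (nat_lit 0x40492) (nat_lit 0) (p (nat_lit 0x28412) (nat_lit 0) (p (nat_lit 0x30292) (nat_lit 0) (p (nat_lit 0x18212) (nat_lit 0) (p (nat_lit 0x20092) (nat_lit 0) (p (nat_lit 0x8012) (nat_lit 0) pn))))))))))))))))))) :=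
  Cl.node (nat_lit 0x119) (nat_lit 2) (by decide +kernel) (ClAll.succ (ClAll.succ ClAll.zero n83) n84)

def n97 : Cl (O (nat_lit 4)) (R (nat_lit 104577))
    (p (nat_lit 0xd1) (nat_lit 1) (p (nat_lit 0x89) (nat_lit 0) (p (nat_lit 0x41) (nat_lit 0) (p (nat_lit 0x108070907889a) (nat_lit 0) (p (nat_lit 0x107868887061a) (nat_lit 0) (p (nat_lit 0x8000000000000070806878a) (nat_lit 0) (p (nat_lit 0x8000000000000068786050a) (nat_lit 0) (p (nat_lit 0x10507058682) (nat_lit 0) (p (nat_lit 0x10486850402) (nat_lit 0) (p (nat_lit 0x16000c) (nat_lit 0) (p (nat_lit 0x160004) (nat_lit 0) (p (nat_lit 0x50612) (nat_lit 0) (p (nat_lit 0x38592) (nat_lit 0) (p (nat_lit 0x40492) (nat_lit 0) (p (nat_lit 0x28412) (nat_lit 0) (p (nat_lit 0x30292) (nat_lit 0) (p (nat_lit 0x18212) (nat_lit 0) (p (nat_lit 0x20092) (nat_lit 0) (p (nat_lit 0x8012) (nat_lit 0) pn))))))))))))))))))) :=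
  Cl.node (nat_lit 0x111) (nat_lit 2) (by decide +kernel) (ClAll.succ (ClAll.succ ClAll.zero n85) n86)

def n98 : Cl (O (nat_lit 4)) (R (nat_lit 104577))
    (p (nat_lit 0xc9) (nat_lit 0) (p (nat_lit 0x89) (nat_lit 1) (p (nat_lit 0x41) (nat_lit 0) (p (nat_lit 0x108070907889a) (nat_lit 0) (p (nat_lit 0x107868887061a) (nat_lit 0) (p (nat_lit 0x8000000000000070806878a) (nat_lit 0) (p (nat_lit 0x8000000000000068786050a) (nat_lit 0) (p (nat_lit 0x10507058682) (nat_lit 0) (p (nat_lit 0x10486850402) (nat_lit 0) (p (nat_lit 0x16000c) (nat_lit 0) (p (nat_lit 0x160004) (nat_lit 0) (p (nat_lit 0x50612) (nat_lit 0) (p (nat_lit 0x38592) (nat_lit 0) (p (nat_lit 0x40492) (nat_lit 0) (p (nat_lit 0x28412) (nat_lit 0) (p (nat_lit 0x30292) (nat_lit 0) (p (nat_lit 0x18212) (nat_lit 0) (p (nat_lit 0x20092) (nat_lit 0) (p (nat_lit 0x8012) (nat_lit 0) pn))))))))))))))))))) :=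
  Cl.node (nat_lit 0x119) (nat_lit 2) (by decide +kernel) (ClAll.succ (ClAll.succ ClAll.zero n87) n88)

def n99 : Cl (O (nat_lit 4)) (R (nat_lit 104577))
    (p (nat_lit 0xc9) (nat_lit 1) (p (nat_lit 0x89) (nat_lit 1) (p (nat_lit 0x41) (nat_lit 0) (p (nat_lit 0x108070907889a) (nat_lit 0) (p (nat_lit 0x107868887061a) (nat_lit 0) (p (nat_lit 0x8000000000000070806878a) (nat_lit 0) (p (nat_lit 0x8000000000000068786050a) (nat_lit 0) (p (nat_lit 0x10507058682) (nat_lit 0) (p (nat_lit 0x10486850402) (nat_lit 0) (p (nat_lit 0x16000c) (nat_lit 0) (p (nat_lit 0x160004) (nat_lit 0) (p (nat_lit 0x50612) (nat_lit 0) (p (nat_lit 0x38592) (nat_lit 0) (p (nat_lit 0x40492) (nat_lit 0) (p (nat_lit 0x28412) (nat_lit 0) (p (nat_lit 0x30292) (nat_lit 0) (p (nat_lit 0x18212) (nat_lit 0) (p (nat_lit 0x20092) (nat_lit 0) (p (nat_lit 0x8012) (nat_lit 0) pn))))))))))))))))))) :=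
  Cl.node (nat_lit 0x109) (nat_lit 2) (by decide +kernel) (ClAll.succ (ClAll.succ ClAll.zero n89) s58)

def n100 : Cl (O (nat_lit 4)) (R (nat_lit 104577))
    (p (nat_lit 0xd1) (nat_lit 0) (p (nat_lit 0x81) (nat_lit 0) (p (nat_lit 0x41) (nat_lit 1) (p (nat_lit 0x108070907889a) (nat_lit 0) (p (nat_lit 0x107868887061a) (nat_lit 0) (p (nat_lit 0x8000000000000070806878a) (nat_lit 0) (p (nat_lit 0x8000000000000068786050a) (nat_lit 0) (p (nat_lit 0x10507058682) (nat_lit 0) (p (nat_lit 0x10486850402) (nat_lit 0) (p (nat_lit 0x16000c) (nat_lit 0) (p (nat_lit 0x160004) (nat_lit 0) (p (nat_lit 0x50612) (nat_lit 0) (p (nat_lit 0x38592) (nat_lit 0) (p (nat_lit 0x40492) (nat_lit 0) (p (nat_lit 0x28412) (nat_lit 0) (p (nat_lit 0x30292) (nat_lit 0) (p (nat_lit 0x18212) (nat_lit 0) (p (nat_lit 0x20092) (nat_lit 0) (p (nat_lit 0x8012) (nat_lit 0) pn))))))))))))))))))) :=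
  Cl.node (nat_lit 0x119) (nat_lit 2) (by decide +kernel) (ClAll.succ (ClAll.succ ClAll.zero n90) n91)

def n101 : Cl (O (nat_lit 4)) (R (nat_lit 104577))
    (p (nat_lit 0xd1) (nat_lit 1) (p (nat_lit 0x81) (nat_lit 0) (p (nat_lit 0x41) (nat_lit 1) (p (nat_lit 0x108070907889a) (nat_lit 0) (p (nat_lit 0x107868887061a) (nat_lit 0) (p (nat_lit 0x8000000000000070806878a) (nat_lit 0) (p (nat_lit 0x8000000000000068786050a) (nat_lit 0) (p (nat_lit 0x10507058682) (nat_lit 0) (p (nat_lit 0x10486850402) (nat_lit 0) (p (nat_lit 0x16000c) (nat_lit 0) (p (nat_lit 0x160004) (nat_lit 0) (p (nat_lit 0x50612) (nat_lit 0) (p (nat_lit 0x38592) (nat_lit 0) (p (nat_lit 0x40492) (nat_lit 0) (p (nat_lit 0x28412) (nat_lit 0) (p (nat_lit 0x30292) (nat_lit 0) (p (nat_lit 0x18212) (nat_lit 0) (p (nat_lit 0x20092) (nat_lit 0) (p (nat_lit 0x8012) (nat_lit 0) pn))))))))))))))))))) :=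
  Cl.node (nat_lit 0x111) (nat_lit 2) (by decide +kernel) (ClAll.succ (ClAll.succ ClAll.zero n92) s81)

def n102 : Cl (O (nat_lit 4)) (R (nat_lit 104577))
    (p (nat_lit 0xc1) (nat_lit 0) (p (nat_lit 0x81) (nat_lit 1) (p (nat_lit 0x41) (nat_lit 1) (p (nat_lit 0x108070907889a) (nat_lit 0) (p (nat_lit 0x107868887061a) (nat_lit 0) (p (nat_lit 0x8000000000000070806878a) (nat_lit 0) (p (nat_lit 0x8000000000000068786050a) (nat_lit 0) (p (nat_lit 0x10507058682) (nat_lit 0) (p (nat_lit 0x10486850402) (nat_lit 0) (p (nat_lit 0x16000c) (nat_lit 0) (p (nat_lit 0x160004) (nat_lit 0) (p (nat_lit 0x50612) (nat_lit 0) (p (nat_lit 0x38592) (nat_lit 0) (p (nat_lit 0x40492) (nat_lit 0) (p (nat_lit 0x28412) (nat_lit 0) (p (nat_lit 0x30292) (nat_lit 0) (p (nat_lit 0x18212) (nat_lit 0) (p (nat_lit 0x20092) (nat_lit 0) (p (nat_lit 0x8012) (nat_lit 0) pn))))))))))))))))))) :=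
  Cl.node (nat_lit 0x119) (nat_lit 2) (by decide +kernel) (ClAll.succ (ClAll.succ ClAll.zero n93) n94)

def n103 : Cl (O (nat_lit 4)) (R (nat_lit 104577))
    (p (nat_lit 0xc1) (nat_lit 1) (p (nat_lit 0x81) (nat_lit 1) (p (nat_lit 0x41) (nat_lit 1) (p (nat_lit 0x108070907889a) (nat_lit 0) (p (nat_lit 0x107868887061a) (nat_lit 0) (p (nat_lit 0x8000000000000070806878a) (nat_lit 0) (p (nat_lit 0x8000000000000068786050a) (nat_lit 0) (p (nat_lit 0x10507058682) (nat_lit 0) (p (nat_lit 0x10486850402) (nat_lit 0) (p (nat_lit 0x16000c) (nat_lit 0) (p (nat_lit 0x160004) (nat_lit 0) (p (nat_lit 0x50612) (nat_lit 0) (p (nat_lit 0x38592) (nat_lit 0) (p (nat_lit 0x40492) (nat_lit 0) (p (nat_lit 0x28412) (nat_lit 0) (p (nat_lit 0x30292) (nat_lit 0) (p (nat_lit 0x18212) (nat_lit 0) (p (nat_lit 0x20092) (nat_lit 0) (p (nat_lit 0x8012) (nat_lit 0) pn))))))))))))))))))) :=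
  Cl.node (nat_lit 0x101) (nat_lit 2) (by decide +kernel) (ClAll.succ (ClAll.succ ClAll.zero n95) s111)

def n104 : Cl (O (nat_lit 4)) (R (nat_lit 104577))
    (p (nat_lit 0x89) (nat_lit 0) (p (nat_lit 0x41) (nat_lit 0) (p (nat_lit 0x108070907889a) (nat_lit 0) (p (nat_lit 0x107868887061a) (nat_lit 0) (p (nat_lit 0x8000000000000070806878a) (nat_lit 0) (p (nat_lit 0x8000000000000068786050a) (nat_lit 0) (p (nat_lit 0x10507058682) (nat_lit 0) (p (nat_lit 0x10486850402) (nat_lit 0) (p (nat_lit 0x16000c) (nat_lit 0) (p (nat_lit 0x160004) (nat_lit 0) (p (nat_lit 0x50612) (nat_lit 0) (p (nat_lit 0x38592) (nat_lit 0) (p (nat_lit 0x40492) (nat_lit 0) (p (nat_lit 0x28412) (nat_lit 0) (p (nat_lit 0x30292) (nat_lit 0) (p (nat_lit 0x18212) (nat_lit 0) (p (nat_lit 0x20092) (nat_lit 0) (p (nat_lit 0x8012) (nat_lit 0) pn)))))))))))))))))) :=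
  Cl.node (nat_lit 0xd1) (nat_lit 2) (by decide +kernel) (ClAll.succ (ClAll.succ ClAll.zero n96) n97)

def n105 : Cl (O (nat_lit 4)) (R (nat_lit 104577))
    (p (nat_lit 0x89) (nat_lit 1) (p (nat_lit 0x41) (nat_lit 0) (p (nat_lit 0x108070907889a) (nat_lit 0) (p (nat_lit 0x107868887061a) (nat_lit 0) (p (nat_lit 0x8000000000000070806878a) (nat_lit 0) (p (nat_lit 0x8000000000000068786050a) (nat_lit 0) (p (nat_lit 0x10507058682) (nat_lit 0) (p (nat_lit 0x10486850402) (nat_lit 0) (p (nat_lit 0x16000c) (nat_lit 0) (p (nat_lit 0x160004) (nat_lit 0) (p (nat_lit 0x50612) (nat_lit 0) (p (nat_lit 0x38592) (nat_lit 0) (p (nat_lit 0x40492) (nat_lit 0) (p (nat_lit 0x28412) (nat_lit 0) (p (nat_lit 0x30292) (nat_lit 0) (p (nat_lit 0x18212) (nat_lit 0) (p (nat_lit 0x20092) (nat_lit 0) (p (nat_lit 0x8012) (nat_lit 0) pn)))))))))))))))))) :=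
  Cl.node (nat_lit 0xc9) (nat_lit 2) (by decide +kernel) (ClAll.succ (ClAll.succ ClAll.zero n98) n99)

def n106 : Cl (O (nat_lit 4)) (R (nat_lit 104577))
    (p (nat_lit 0x81) (nat_lit 0) (p (nat_lit 0x41) (nat_lit 1) (p (nat_lit 0x108070907889a) (nat_lit 0) (p (nat_lit 0x107868887061a) (nat_lit 0) (p (nat_lit 0x8000000000000070806878a) (nat_lit 0) (p (nat_lit 0x8000000000000068786050a) (nat_lit 0) (p (nat_lit 0x10507058682) (nat_lit 0) (p (nat_lit 0x10486850402) (nat_lit 0) (p (nat_lit 0x16000c) (nat_lit 0) (p (nat_lit 0x160004) (nat_lit 0) (p (nat_lit 0x50612) (nat_lit 0) (p (nat_lit 0x38592) (nat_lit 0) (p (nat_lit 0x40492) (nat_lit 0) (p (nat_lit 0x28412) (nat_lit 0) (p (nat_lit 0x30292) (nat_lit 0) (p (nat_lit 0x18212) (nat_lit 0) (p (nat_lit 0x20092) (nat_lit 0) (p (nat_lit 0x8012) (nat_lit 0) pn)))))))))))))))))) :=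
  Cl.node (nat_lit 0xd1) (nat_lit 2) (by decide +kernel) (ClAll.succ (ClAll.succ ClAll.zero n100) n101)

def n107 : Cl (O (nat_lit 4)) (R (nat_lit 104577))
    (p (nat_lit 0x81) (nat_lit 1) (p (nat_lit 0x41) (nat_lit 1) (p (nat_lit 0x108070907889a) (nat_lit 0) (p (nat_lit 0x107868887061a) (nat_lit 0) (p (nat_lit 0x8000000000000070806878a) (nat_lit 0) (p (nat_lit 0x8000000000000068786050a) (nat_lit 0) (p (nat_lit 0x10507058682) (nat_lit 0) (p (nat_lit 0x10486850402) (nat_lit 0) (p (nat_lit 0x16000c) (nat_lit 0) (p (nat_lit 0x160004) (nat_lit 0) (p (nat_lit 0x50612) (nat_lit 0) (p (nat_lit 0x38592) (nat_lit 0) (p (nat_lit 0x40492) (nat_lit 0) (p (nat_lit 0x28412) (nat_lit 0) (p (nat_lit 0x30292) (nat_lit 0) (p (nat_lit 0x18212) (nat_lit 0) (p (nat_lit 0x20092) (nat_lit 0) (p (nat_lit 0x8012) (nat_lit 0) pn)))))))))))))))))) :=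
  Cl.node (nat_lit 0xc1) (nat_lit 2) (by decide +kernel) (ClAll.succ (ClAll.succ ClAll.zero n102) n103)

def n108 : Cl (O (nat_lit 4)) (R (nat_lit 104577))
    (p (nat_lit 0x41) (nat_lit 0) (p (nat_lit 0x108070907889a) (nat_lit 0) (p (nat_lit 0x107868887061a) (nat_lit 0) (p (nat_lit 0x8000000000000070806878a) (nat_lit 0) (p (nat_lit 0x8000000000000068786050a) (nat_lit 0) (p (nat_lit 0x10507058682) (nat_lit 0) (p (nat_lit 0x10486850402) (nat_lit 0) (p (nat_lit 0x16000c) (nat_lit 0) (p (nat_lit 0x160004) (nat_lit 0) (p (nat_lit 0x50612) (nat_lit 0) (p (nat_lit 0x38592) (nat_lit 0) (p (nat_lit 0x40492) (nat_lit 0) (p (nat_lit 0x28412) (nat_lit 0) (p (nat_lit 0x30292) (nat_lit 0) (p (nat_lit 0x18212) (nat_lit 0) (p (nat_lit 0x20092) (nat_lit 0) (p (nat_lit 0x8012) (nat_lit 0) pn))))))))))))))))) :=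
  Cl.node (nat_lit 0x89) (nat_lit 2) (by decide +kernel) (ClAll.succ (ClAll.succ ClAll.zero n104) n105)

def n109 : Cl (O (nat_lit 4)) (R (nat_lit 104577))
    (p (nat_lit 0x41) (nat_lit 1) (p (nat_lit 0x108070907889a) (nat_lit 0) (p (nat_lit 0x107868887061a) (nat_lit 0) (p (nat_lit 0x8000000000000070806878a) (nat_lit 0) (p (nat_lit 0x8000000000000068786050a) (nat_lit 0) (p (nat_lit 0x10507058682) (nat_lit 0) (p (nat_lit 0x10486850402) (nat_lit 0) (p (nat_lit 0x16000c) (nat_lit 0) (p (nat_lit 0x160004) (nat_lit 0) (p (nat_lit 0x50612) (nat_lit 0) (p (nat_lit 0x38592) (nat_lit 0) (p (nat_lit 0x40492) (nat_lit 0) (p (nat_lit 0x28412) (nat_lit 0) (p (nat_lit 0x30292) (nat_lit 0) (p (nat_lit 0x18212) (nat_lit 0) (p (nat_lit 0x20092) (nat_lit 0) (p (nat_lit 0x8012) (nat_lit 0) pn))))))))))))))))) :=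
  Cl.node (nat_lit 0x81) (nat_lit 2) (by decide +kernel) (ClAll.succ (ClAll.succ ClAll.zero n106) n107)

def n110 : Cl (O (nat_lit 4)) (R (nat_lit 104577))
    (p (nat_lit 0x108070907889a) (nat_lit 0) (p (nat_lit 0x107868887061a) (nat_lit 0) (p (nat_lit 0x8000000000000070806878a) (nat_lit 0) (p (nat_lit 0x8000000000000068786050a) (nat_lit 0) (p (nat_lit 0x10507058682) (nat_lit 0) (p (nat_lit 0x10486850402) (nat_lit 0) (p (nat_lit 0x16000c) (nat_lit 0) (p (nat_lit 0x160004) (nat_lit 0) (p (nat_lit 0x50612) (nat_lit 0) (p (nat_lit 0x38592) (nat_lit 0) (p (nat_lit 0x40492) (nat_lit 0) (p (nat_lit 0x28412) (nat_lit 0) (p (nat_lit 0x30292) (nat_lit 0) (p (nat_lit 0x18212) (nat_lit 0) (p (nat_lit 0x20092) (nat_lit 0) (p (nat_lit 0x8012) (nat_lit 0) pn)))))))))))))))) :=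
  Cl.node (nat_lit 0x41) (nat_lit 2) (by decide +kernel) (ClAll.succ (ClAll.succ ClAll.zero n108) n109)

def n111 : Cl (O (nat_lit 4)) (R (nat_lit 104577))
    (p (nat_lit 0x107868887061a) (nat_lit 0) (p (nat_lit 0x8000000000000070806878a) (nat_lit 0) (p (nat_lit 0x8000000000000068786050a) (nat_lit 0) (p (nat_lit 0x10507058682) (nat_lit 0) (p (nat_lit 0x10486850402) (nat_lit 0) (p (nat_lit 0x16000c) (nat_lit 0) (p (nat_lit 0x160004) (nat_lit 0) (p (nat_lit 0x50612) (nat_lit 0) (p (nat_lit 0x38592) (nat_lit 0) (p (nat_lit 0x40492) (nat_lit 0) (p (nat_lit 0x28412) (nat_lit 0) (p (nat_lit 0x30292) (nat_lit 0) (p (nat_lit 0x18212) (nat_lit 0) (p (nat_lit 0x20092) (nat_lit 0) (p (nat_lit 0x8012) (nat_lit 0) pn))))))))))))))) :=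
  Cl.node (nat_lit 0x108070907889a) (nat_lit 1) (by decide +kernel) (ClAll.succ ClAll.zero n110)

def n112 : Cl (O (nat_lit 4)) (R (nat_lit 104577))
    (p (nat_lit 0x8000000000000070806878a) (nat_lit 0) (p (nat_lit 0x8000000000000068786050a) (nat_lit 0) (p (nat_lit 0x10507058682) (nat_lit 0) (p (nat_lit 0x10486850402) (nat_lit 0) (p (nat_lit 0x16000c) (nat_lit 0) (p (nat_lit 0x160004) (nat_lit 0) (p (nat_lit 0x50612) (nat_lit 0) (p (nat_lit 0x38592) (nat_lit 0) (p (nat_lit 0x40492) (nat_lit 0) (p (nat_lit 0x28412) (nat_lit 0) (p (nat_lit 0x30292) (nat_lit 0) (p (nat_lit 0x18212) (nat_lit 0) (p (nat_lit 0x20092) (nat_lit 0) (p (nat_lit 0x8012) (nat_lit 0) pn)))))))))))))) :=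
  Cl.node (nat_lit 0x107868887061a) (nat_lit 1) (by decide +kernel) (ClAll.succ ClAll.zero n111)

def n113 : Cl (O (nat_lit 4)) (R (nat_lit 104577))
    (p (nat_lit 0x8000000000000068786050a) (nat_lit 0) (p (nat_lit 0x10507058682) (nat_lit 0) (p (nat_lit 0x10486850402) (nat_lit 0) (p (nat_lit 0x16000c) (nat_lit 0) (p (nat_lit 0x160004) (nat_lit 0) (p (nat_lit 0x50612) (nat_lit 0) (p (nat_lit 0x38592) (nat_lit 0) (p (nat_lit 0x40492) (nat_lit 0) (p (nat_lit 0x28412) (nat_lit 0) (p (nat_lit 0x30292) (nat_lit 0) (p (nat_lit 0x18212) (nat_lit 0) (p (nat_lit 0x20092) (nat_lit 0) (p (nat_lit 0x8012) (nat_lit 0) pn))))))))))))) :=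
  Cl.node (nat_lit 0x8000000000000070806878a) (nat_lit 1) (by decide +kernel) (ClAll.succ ClAll.zero n112)

def n114 : Cl (O (nat_lit 4)) (R (nat_lit 104577))
    (p (nat_lit 0x10507058682) (nat_lit 0) (p (nat_lit 0x10486850402) (nat_lit 0) (p (nat_lit 0x16000c) (nat_lit 0) (p (nat_lit 0x160004) (nat_lit 0) (p (nat_lit 0x50612) (nat_lit 0) (p (nat_lit 0x38592) (nat_lit 0) (p (nat_lit 0x40492) (nat_lit 0) (p (nat_lit 0x28412) (nat_lit 0) (p (nat_lit 0x30292) (nat_lit 0) (p (nat_lit 0x18212) (nat_lit 0) (p (nat_lit 0x20092) (nat_lit 0) (p (nat_lit 0x8012) (nat_lit 0) pn)))))))))))) :=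
  Cl.node (nat_lit 0x8000000000000068786050a) (nat_lit 1) (by decide +kernel) (ClAll.succ ClAll.zero n113)

def n115 : Cl (O (nat_lit 4)) (R (nat_lit 104577))
    (p (nat_lit 0x10486850402) (nat_lit 0) (p (nat_lit 0x16000c) (nat_lit 0) (p (nat_lit 0x160004) (nat_lit 0) (p (nat_lit 0x50612) (nat_lit 0) (p (nat_lit 0x38592) (nat_lit 0) (p (nat_lit 0x40492) (nat_lit 0) (p (nat_lit 0x28412) (nat_lit 0) (p (nat_lit 0x30292) (nat_lit 0) (p (nat_lit 0x18212) (nat_lit 0) (p (nat_lit 0x20092) (nat_lit 0) (p (nat_lit 0x8012) (nat_lit 0) pn))))))))))) :=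
  Cl.node (nat_lit 0x10507058682) (nat_lit 1) (by decide +kernel) (ClAll.succ ClAll.zero n114)

def n116 : Cl (O (nat_lit 4)) (R (nat_lit 104577))
    (p (nat_lit 0x16000c) (nat_lit 0) (p (nat_lit 0x160004) (nat_lit 0) (p (nat_lit 0x50612) (nat_lit 0) (p (nat_lit 0x38592) (nat_lit 0) (p (nat_lit 0x40492) (nat_lit 0) (p (nat_lit 0x28412) (nat_lit 0) (p (nat_lit 0x30292) (nat_lit 0) (p (nat_lit 0x18212) (nat_lit 0) (p (nat_lit 0x20092) (nat_lit 0) (p (nat_lit 0x8012) (nat_lit 0) pn)))))))))) :=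
  Cl.node (nat_lit 0x10486850402) (nat_lit 1) (by decide +kernel) (ClAll.succ ClAll.zero n115)

def n117 : Cl (O (nat_lit 4)) (R (nat_lit 104577))
    (p (nat_lit 0x160004) (nat_lit 0) (p (nat_lit 0x50612) (nat_lit 0) (p (nat_lit 0x38592) (nat_lit 0) (p (nat_lit 0x40492) (nat_lit 0) (p (nat_lit 0x28412) (nat_lit 0) (p (nat_lit 0x30292) (nat_lit 0) (p (nat_lit 0x18212) (nat_lit 0) (p (nat_lit 0x20092) (nat_lit 0) (p (nat_lit 0x8012) (nat_lit 0) pn))))))))) :=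
  Cl.node (nat_lit 0x16000c) (nat_lit 2) (by decide +kernel) (ClAll.succ (ClAll.succ ClAll.zero n116) s112)

def n118 : Cl (O (nat_lit 4)) (R (nat_lit 104577))
    (p (nat_lit 0x50612) (nat_lit 0) (p (nat_lit 0x38592) (nat_lit 0) (p (nat_lit 0x40492) (nat_lit 0) (p (nat_lit 0x28412) (nat_lit 0) (p (nat_lit 0x30292) (nat_lit 0) (p (nat_lit 0x18212) (nat_lit 0) (p (nat_lit 0x20092) (nat_lit 0) (p (nat_lit 0x8012) (nat_lit 0) pn)))))))) :=
  Cl.node (nat_lit 0x160004) (nat_lit 2) (by decide +kernel) (ClAll.succ (ClAll.succ ClAll.zero n117) s113)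

def n119 : Cl (O (nat_lit 4)) (R (nat_lit 104577))
    (p (nat_lit 0x38592) (nat_lit 0) (p (nat_lit 0x40492) (nat_lit 0) (p (nat_lit 0x28412) (nat_lit 0) (p (nat_lit 0x30292) (nat_lit 0) (p (nat_lit 0x18212) (nat_lit 0) (p (nat_lit 0x20092) (nat_lit 0) (p (nat_lit 0x8012) (nat_lit 0) pn))))))) :=
  Cl.node (nat_lit 0x50612) (nat_lit 1) (by decide +kernel) (ClAll.succ ClAll.zero n118)

def n120 : Cl (O (nat_lit 4)) (R (nat_lit 104577))
    (p (nat_lit 0x40492) (nat_lit 0) (p (nat_lit 0x28412) (nat_lit 0) (p (nat_lit 0x30292) (nat_lit 0) (p (nat_lit 0x18212) (nat_lit 0) (p (nat_lit 0x20092) (nat_lit 0) (p (nat_lit 0x8012) (nat_lit 0) pn)))))) :=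
  Cl.node (nat_lit 0x38592) (nat_lit 1) (by decide +kernel) (ClAll.succ ClAll.zero n119)

def n121 : Cl (O (nat_lit 4)) (R (nat_lit 104577))
    (p (nat_lit 0x28412) (nat_lit 0) (p (nat_lit 0x30292) (nat_lit 0) (p (nat_lit 0x18212) (nat_lit 0) (p (nat_lit 0x20092) (nat_lit 0) (p (nat_lit 0x8012) (nat_lit 0) pn))))) :=
  Cl.node (nat_lit 0x40492) (nat_lit 1) (by decide +kernel) (ClAll.succ ClAll.zero n120)

def n122 : Cl (O (nat_lit 4)) (R (nat_lit 104577))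
    (p (nat_lit 0x30292) (nat_lit 0) (p (nat_lit 0x18212) (nat_lit 0) (p (nat_lit 0x20092) (nat_lit 0) (p (nat_lit 0x8012) (nat_lit 0) pn)))) :=
  Cl.node (nat_lit 0x28412) (nat_lit 1) (by decide +kernel) (ClAll.succ ClAll.zero n121)

def n123 : Cl (O (nat_lit 4)) (R (nat_lit 104577))
    (p (nat_lit 0x18212) (nat_lit 0) (p (nat_lit 0x20092) (nat_lit 0) (p (nat_lit 0x8012) (nat_lit 0) pn))) :=
  Cl.node (nat_lit 0x30292) (nat_lit 1) (by decide +kernel) (ClAll.succ ClAll.zero n122)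

def n124 : Cl (O (nat_lit 4)) (R (nat_lit 104577))
    (p (nat_lit 0x20092) (nat_lit 0) (p (nat_lit 0x8012) (nat_lit 0) pn)) :=
  Cl.node (nat_lit 0x18212) (nat_lit 1) (by decide +kernel) (ClAll.succ ClAll.zero n123)

def n125 : Cl (O (nat_lit 4)) (R (nat_lit 104577))
    (p (nat_lit 0x8012) (nat_lit 0) pn) :=
  Cl.node (nat_lit 0x20092) (nat_lit 1) (by decide +kernel) (ClAll.succ ClAll.zero n124)

def n126 : Cl (O (nat_lit 4)) (R (nat_lit 104577))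
    pn :=
  Cl.node (nat_lit 0x8012) (nat_lit 1) (by decide +kernel) (ClAll.succ ClAll.zero n125)

theorem top : Cl (O (nat_lit 4)) (R (nat_lit 104577)) pn := n126

end Pool.Agent.Gen.F5.X1C2D13m4
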